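import Pool.Agent.H96.HD.Shear

/-!
# Hard disks near close packing: the structure of a configuration

To each configuration we attach its parent function; the roots are the points with a large local
defect.
-/

set_option autoImplicit false

open Real Set MeasureTheory Metric
open scoped ENNReal

namespace Pool.Agent.H96.HD

/-- configurations of `N` points of the square of side `L` at mutual distances at least `√3` -/
def Kc (N : ℕ) (L : ℝ) : Set (Fin N → ℂ) :=
  {x | (∀ i, x i ∈ Sq L) ∧ ∀ i j, i ≠ j → √3 ≤ ‖x i - x j‖}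

section

variable {N : ℕ} {L : ℝ} {x : Fin N → ℂ}

/-- the near neighbours of the point `i` -/
noncomputable def nbr (x : Fin N → ℂ) (i : Fin N) : Finset (Fin N) :=
  (Finset.univ.erase i).filter fun j => π / 7 < al (x j - x i)

theorem mem_nbr {i j : Fin N} : j ∈ nbr x i ↔ j ≠ i ∧ π / 7 < al (x j - x i) := by
  simp [nbr]

theorem nbr_symm {i j : Fin N} (h : j ∈ nbr x i) : i ∈ nbr x j := by
  rw [mem_nbr] at h ⊢
  refine ⟨h.1.symm, ?_⟩
  rw [← al_neg, neg_sub]
  exact h.2

theorem nbr_norm {i j : Fin N} (h : j ∈ nbr x i) : ‖x j - x i‖ ≤ 2 := by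
  rw [mem_nbr] at h
  by_contra hcon
  push Not at hcon
  have h1 : al (x j - x i) = 0 := by
    unfold al
    exact arccos_of_one_le (by linarith)
  have := h.2
  rw [h1] at this
  linarith [pi_pos]

theorem sum_al_le (hx : x ∈ Kc N L) (i : Fin N) :
    ∑ j ∈ Finset.univ.erase i, al (x j - x i) ≤ π := by
  have h1 : ∑ j ∈ Finset.univ.erase i, al (x j - x i) =
      ∑ j ∈ (Finset.univ.erase i).filter (fun j => ‖x j - x i‖ ≤ 2), al (x j - x i) := by
    rw [Finset.sum_filter]
    refine Finset.sum_congr rfl fun j _ => ?_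
    split_ifs with h
    · rfl
    · unfold al
      exact arccos_of_one_le (by linarith)
  rw [h1]
  refine arcs_total _ (fun j => x j - x i) (fun j hj => ?_) (fun j hj => ?_) (fun j hj k hk hjk => ?_)
  · exact hx.2 j i (Finset.ne_of_mem_erase (Finset.mem_filter.mp hj).1)
  · exact (Finset.mem_filter.mp hj).2
  · rw [sub_sub_sub_cancel_right]
    exact hx.2 j k hjk

theorem nbr_card_le (hx : x ∈ Kc N L) (i : Fin N) : (nbr x i).card ≤ 6 := by
  by_contra hcon
  push Not at hcon
  have hp := pi_pos
  have h1 : ((nbr x i).card : ℝ) * (π / 7) < ∑ j ∈ nbr x i, al (x j - x i) := by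
    have hne : (nbr x i).Nonempty := Finset.card_pos.mp (by omega)
    have := Finset.sum_lt_sum_of_nonempty hne (f := fun _ => π / 7) (g := fun j => al (x j - x i))
      (fun j hj => (mem_nbr.mp hj).2)
    simpa [Finset.sum_const] using this
  have h2 : ∑ j ∈ nbr x i, al (x j - x i) ≤ ∑ j ∈ Finset.univ.erase i, al (x j - x i) :=
    Finset.sum_le_sum_of_subset_of_nonneg (Finset.filter_subset _ _) fun j _ _ => al_nonneg _
  have h3 := sum_al_le hx i
  have h4 : (7:ℝ) ≤ (nbr x i).card := by exact_mod_cast hcon
  nlinarith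

theorem stab (hx : x ∈ Kc N L) (i : Fin N) : 0 ≤ defect x i ∧
    (defect x i < c0 → (nbr x i).card = 6 ∧
      ∑ j ∈ nbr x i, (π / 6 - al (x j - x i)) ≤ C1 * defect x i) :=
  stability (Finset.univ.erase i) (fun j => al (x j - x i)) (fun _ _ => al_nonneg _)
    (fun j hj => al_le (hx.2 j i (Finset.ne_of_mem_erase hj))) (sum_al_le hx i)

theorem exists_parent (hx : x ∈ Kc N L) (i : Fin N) (hi : defect x i < c0) :
    ∃ j ∈ nbr x i, (x i).re < (x j).re := by
  by_contra hcon
  push Not at hcon
  have hp := pi_pos
  have h6 := ((stab hx i).2 hi).1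
  have h := arcs_half (nbr x i) (fun j => x j - x i)
    (fun j hj => hx.2 j i (mem_nbr.mp hj).1) (fun j hj => nbr_norm hj)
    (fun j hj k hk hjk => by
      rw [sub_sub_sub_cancel_right]
      exact hx.2 j k hjk)
    (fun j hj => by
      rw [Complex.sub_re]
      linarith [hcon j hj])
  have h1 : ((nbr x i).card : ℝ) * (2 * (π / 7)) ≤ ∑ j ∈ nbr x i, 2 * al (x j - x i) := by
    have := Finset.card_nsmul_le_sum (nbr x i) (fun j => 2 * al (x j - x i)) (2 * (π / 7))
      (fun j hj => by linarith [(mem_nbr.mp hj).2])
    rwa [nsmul_eq_mul] at this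
  rw [h6] at h1
  push_cast at h1
  linarith

theorem exists_rot (hx : x ∈ Kc N L) (i : Fin N) (hi : defect x i < c0) {j k : Fin N}
    (hj : j ∈ nbr x i) (hk : k ∈ nbr x i) :
    ∃ m : Fin 6, ‖(x k - x i) - om m * (x j - x i)‖ ≤ 6 * (C1 * defect x i) := by
  obtain ⟨h6, hB⟩ := (stab hx i).2 hi
  exact hexagon (nbr x i) (fun j => x j - x i)
    (fun j hj => hx.2 j i (mem_nbr.mp hj).1) (fun j hj => nbr_norm hj)
    (fun j hj k hk hjk => by
      rw [sub_sub_sub_cancel_right]
      exact hx.2 j k hjk) h6 _ hB hj hk

theorem sum_defect_le' (hL : 0 ≤ L) (hx : x ∈ Kc N L) :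
    ∑ i, defect x i ≤ (L + 2) ^ 2 - N * v0 := by
  refine sum_defect_le L hL x hx.1 fun i j hij h => ?_
  have := hx.2 i j hij
  rw [h, sub_self, norm_zero] at this
  have h3 : (0:ℝ) < √3 := by positivity
  linarith

/-- the structures which occur -/
def Adm (N : ℕ) (E : ℝ) : Set (Fin N → Option (Fin N × Fin 6)) :=
  {s | (∃ r : Fin N → ℕ, ∀ k i m, s k = some (i, m) → r i < r k) ∧
    ((Finset.univ.filter fun k => cls s k = 0).card : ℝ) * c0 ≤ E ∧
    (Finset.univ.filter fun k => cls s k = 1).card ≤
      6 * (Finset.univ.filter fun k => cls s k = 0).card}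

/-- **Every configuration has a structure.** -/
theorem exists_struct (hL : 0 ≤ L) (hx : x ∈ Kc N L) :
    ∃ s ∈ Adm N ((L + 2) ^ 2 - N * v0),
      (1 - pmap s : (Fin N → ℂ) →ₗ[ℝ] (Fin N → ℂ)) x ∈
        Err s L (36 * C1 * ((L + 2) ^ 2 - N * v0)) := by
  classical
  have hE := sum_defect_le' hL hx
  set E := (L + 2) ^ 2 - N * v0 with hEdef
  have hC1 := C1_pos
  have hc0 := c0_pos
  have hd0 : ∀ i, 0 ≤ defect x i := fun i => (stab hx i).1
  -- parents
  have hpar : ∀ i, ∃ j, defect x i < c0 → j ∈ nbr x i ∧ (x i).re < (x j).re := by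
    intro i
    by_cases hi : defect x i < c0
    · obtain ⟨j, hj, hj'⟩ := exists_parent hx i hi
      exact ⟨j, fun _ => ⟨hj, hj'⟩⟩
    · exact ⟨i, fun h => absurd h hi⟩
  choose par hpar using hpar
  -- rotations
  have hrot : ∀ k, ∃ m : Fin 6, defect x k < c0 → defect x (par k) < c0 →
      ‖(x k - x (par k)) - om m * (x (par (par k)) - x (par k))‖ ≤
        6 * (C1 * defect x (par k)) := by
    intro k
    by_cases hk : defect x k < c0
    · by_cases hi : defect x (par k) < c0
      · obtain ⟨m, hm⟩ := exists_rot hx (par k) hi (hpar (par k) hi).1 (nbr_symm (hpar k hk).1)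
        exact ⟨m, fun _ _ => hm⟩
      · exact ⟨0, fun _ h => absurd h hi⟩
    · exact ⟨0, fun h => absurd h hk⟩
  choose rot hrot using hrot
  set s : Fin N → Option (Fin N × Fin 6) := fun k =>
    if defect x k < c0 then some (par k, rot k) else none with hs
  have hs1 : ∀ k, defect x k < c0 → s k = some (par k, rot k) := fun k hk => by
    simp only [hs, if_pos hk]
  have hs0 : ∀ k, ¬ defect x k < c0 → s k = none := fun k hk => by
    simp only [hs, if_neg hk]
  have hcls0 : ∀ k, cls s k = 0 ↔ ¬ defect x k < c0 := by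
    intro k
    constructor
    · intro h hk
      unfold cls at h
      rw [hs1 k hk] at h
      simp only at h
      by_cases hi : defect x (par k) < c0
      · rw [hs1 _ hi] at h
        simp at h
      · rw [hs0 _ hi] at h
        simp at h
    · intro hk
      unfold cls
      rw [hs0 k hk]
  have hcls1 : ∀ k, cls s k = 1 ↔ defect x k < c0 ∧ ¬ defect x (par k) < c0 := by
    intro k
    by_cases hk : defect x k < c0
    · unfold cls
      rw [hs1 k hk]
      simp only
      by_cases hi : defect x (par k) < c0
      · rw [hs1 _ hi]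
        simp [hk, hi]
      · rw [hs0 _ hi]
        simp [hk, hi]
    · have := (hcls0 k).mpr hk
      rw [this]
      simp [hk]
  have hcls2 : ∀ k, cls s k = 2 ↔ defect x k < c0 ∧ defect x (par k) < c0 := by
    intro k
    by_cases hk : defect x k < c0
    · unfold cls
      rw [hs1 k hk]
      simp only
      by_cases hi : defect x (par k) < c0
      · rw [hs1 _ hi]
        simp [hk, hi]
      · rw [hs0 _ hi]
        simp [hk, hi]
    · have := (hcls0 k).mpr hk
      rw [this]
      simp [hk]
  refine ⟨s, ⟨?_, ?_, ?_⟩, ?_, ?_, ?_⟩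
  · -- acyclic
    refine ⟨fun k => (Finset.univ.filter fun j => (x k).re < (x j).re).card, fun k i m h => ?_⟩
    have hk : defect x k < c0 := by
      by_contra hk
      rw [hs0 k hk] at h
      simp at h
    rw [hs1 k hk] at h
    have hi : par k = i := by
      have := Option.some.inj h
      exact (Prod.mk.inj this).1
    subst hi
    have hlt := (hpar k hk).2
    refine Finset.card_lt_card ?_
    rw [Finset.ssubset_iff_of_subset]
    · refine ⟨par k, ?_, ?_⟩
      · simp [hlt]
      · simp
    · intro j hj
      simp only [Finset.mem_filter, Finset.mem_univ, true_and] at hj ⊢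
      linarith
  · -- few roots
    have h1 : ((Finset.univ.filter fun k => cls s k = 0).card : ℝ) * c0 ≤
        ∑ k ∈ Finset.univ.filter (fun k => cls s k = 0), defect x k := by
      have := Finset.card_nsmul_le_sum (Finset.univ.filter fun k => cls s k = 0)
        (fun k => defect x k) c0 (fun k hk => by
          have := (hcls0 k).mp (Finset.mem_filter.mp hk).2
          exact not_lt.mp this)
      rwa [nsmul_eq_mul] at this
    refine h1.trans (le_trans ?_ hE)
    exact Finset.sum_le_sum_of_subset_of_nonneg (Finset.filter_subset _ _) fun k _ _ => hd0 k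
  · -- few children of roots
    have h1 : (Finset.univ.filter fun k => cls s k = 1) ⊆
        (Finset.univ.filter fun k => cls s k = 0).biUnion fun i => nbr x i := by
      intro k hk
      have hk' := (hcls1 k).mp (Finset.mem_filter.mp hk).2
      rw [Finset.mem_biUnion]
      refine ⟨par k, ?_, nbr_symm (hpar k hk'.1).1⟩
      rw [Finset.mem_filter]
      exact ⟨Finset.mem_univ _, (hcls0 _).mpr hk'.2⟩
    calc (Finset.univ.filter fun k => cls s k = 1).card
        ≤ ((Finset.univ.filter fun k => cls s k = 0).biUnion fun i => nbr x i).card :=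
          Finset.card_le_card h1
      _ ≤ ∑ i ∈ Finset.univ.filter (fun k => cls s k = 0), (nbr x i).card :=
          Finset.card_biUnion_le
      _ ≤ ∑ i ∈ Finset.univ.filter (fun k => cls s k = 0), 6 :=
          Finset.sum_le_sum fun i _ => nbr_card_le hx i
      _ = 6 * (Finset.univ.filter fun k => cls s k = 0).card := by
          rw [Finset.sum_const, smul_eq_mul, mul_comm]
  · -- the roots
    intro k hk
    have hk' := (hcls0 k).mp hk
    have : (1 - pmap s : (Fin N → ℂ) →ₗ[ℝ] (Fin N → ℂ)) x k = x k := by
      rw [LinearMap.sub_apply, Pi.sub_apply, Module.End.one_apply, pmap_apply]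
      unfold predict
      rw [hs0 k hk']
      simp
    rw [this]
    exact hx.1 k
  · -- the children of the roots
    intro k hk
    have hk' := (hcls1 k).mp hk
    have : (1 - pmap s : (Fin N → ℂ) →ₗ[ℝ] (Fin N → ℂ)) x k = x k - x (par k) := by
      rw [LinearMap.sub_apply, Pi.sub_apply, Module.End.one_apply, pmap_apply]
      unfold predict
      rw [hs1 k hk'.1]
      simp only
      rw [hs0 _ hk'.2]
    rw [this]
    exact nbr_norm (nbr_symm (hpar k hk'.1).1)
  · -- the other points
    have h1 : ∀ k ∈ Finset.univ.filter (fun k => cls s k = 2),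
        ‖(1 - pmap s : (Fin N → ℂ) →ₗ[ℝ] (Fin N → ℂ)) x k‖ ≤ 6 * (C1 * defect x (par k)) := by
      intro k hk
      have hk' := (hcls2 k).mp (Finset.mem_filter.mp hk).2
      have : (1 - pmap s : (Fin N → ℂ) →ₗ[ℝ] (Fin N → ℂ)) x k =
          (x k - x (par k)) - om (rot k) * (x (par (par k)) - x (par k)) := by
        rw [LinearMap.sub_apply, Pi.sub_apply, Module.End.one_apply, pmap_apply]
        unfold predict
        rw [hs1 k hk'.1]
        simp only
        rw [hs1 _ hk'.2]
        simp only
        ring
      rw [this]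
      exact hrot k hk'.1 hk'.2
    calc ∑ k ∈ Finset.univ.filter (fun k => cls s k = 2),
          ‖(1 - pmap s : (Fin N → ℂ) →ₗ[ℝ] (Fin N → ℂ)) x k‖
        ≤ ∑ k ∈ Finset.univ.filter (fun k => cls s k = 2), 6 * (C1 * defect x (par k)) :=
          Finset.sum_le_sum h1
      _ = ∑ i, ∑ k ∈ (Finset.univ.filter (fun k => cls s k = 2)).filter (fun k => par k = i),
            6 * (C1 * defect x (par k)) := (Finset.sum_fiberwise _ _ _).symm
      _ ≤ ∑ i, 36 * C1 * defect x i := by
          refine Finset.sum_le_sum fun i _ => ?_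
          have h2 : ∑ k ∈ (Finset.univ.filter (fun k => cls s k = 2)).filter (fun k => par k = i),
              6 * (C1 * defect x (par k)) = ((Finset.univ.filter (fun k => cls s k = 2)).filter
                (fun k => par k = i)).card * (6 * (C1 * defect x i)) := by
            rw [← nsmul_eq_mul, ← Finset.sum_const]
            refine Finset.sum_congr rfl fun k hk => ?_
            rw [(Finset.mem_filter.mp hk).2]
          rw [h2]
          have h3 : ((Finset.univ.filter (fun k => cls s k = 2)).filter
                (fun k => par k = i)).card ≤ 6 := by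
            refine le_trans (Finset.card_le_card ?_) (nbr_card_le hx i)
            intro k hk
            rw [Finset.mem_filter] at hk
            have hk' := (hcls2 k).mp (Finset.mem_filter.mp hk.1).2
            rw [← hk.2]
            exact nbr_symm (hpar k hk'.1).1
          have h4 : (((Finset.univ.filter (fun k => cls s k = 2)).filter
                (fun k => par k = i)).card : ℝ) ≤ 6 := by exact_mod_cast h3
          have h5 : 0 ≤ 6 * (C1 * defect x i) := by
            have := hd0 i
            positivity
          nlinarith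
      _ = 36 * C1 * ∑ i, defect x i := by rw [Finset.mul_sum]
      _ ≤ 36 * C1 * E := by gcongr

end

end Pool.Agent.H96.HD
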