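import Mathlib

/-!
# Hard disks near close packing: arcs

Points of the plane at distances in `[√3, 2]` from the origin and at mutual distances at least `√3`
define disjoint arcs of the unit circle.
-/

set_option autoImplicit false
set_option linter.unusedSectionVars false

open Real Set MeasureTheory

namespace Pool.Agent.H96.HD

/-- half-angle of the arc of the unit circle inside the unit disk with centre `z` -/
noncomputable def al (z : ℂ) : ℝ := arccos (‖z‖ / 2)

theorem al_nonneg (z : ℂ) : 0 ≤ al z := arccos_nonneg _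

theorem al_neg (z : ℂ) : al (-z) = al z := by simp [al]

theorem cos_al {z : ℂ} (h : ‖z‖ ≤ 2) : cos (al z) = ‖z‖ / 2 := by
  unfold al
  rw [cos_arccos] <;> linarith [norm_nonneg z]

theorem al_le {z : ℂ} (h : √3 ≤ ‖z‖) : al z ≤ π / 6 := by
  unfold al
  have h1 : arccos (√3 / 2) = π / 6 := by
    rw [← cos_pi_div_six, arccos_cos (by positivity) (by linarith [pi_pos])]
  rw [← h1]
  exact arccos_le_arccos (by linarith)

theorem sep_angle {z w : ℂ} (hz : √3 ≤ ‖z‖) (hz2 : ‖z‖ ≤ 2) (hw : √3 ≤ ‖w‖) (hw2 : ‖w‖ ≤ 2)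
    (hs : √3 ≤ ‖z - w‖) : al z + al w ≤ InnerProductGeometry.angle z w := by
  have h3 : (0:ℝ) < √3 := by positivity
  have hz0 : 0 < ‖z‖ := lt_of_lt_of_le h3 hz
  have hw0 : 0 < ‖w‖ := lt_of_lt_of_le h3 hw
  have a0 := al_nonneg z
  have b0 := al_nonneg w
  have a6 := al_le hz
  have b6 := al_le hw
  have hp := pi_pos
  by_contra hcon
  push Not at hcon
  have h1 : cos (al z + al w) < cos (InnerProductGeometry.angle z w) :=
    cos_lt_cos_of_nonneg_of_le_pi (InnerProductGeometry.angle_nonneg z w) (by linarith) hcon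
  rw [InnerProductGeometry.cos_angle,
    real_inner_eq_norm_mul_self_add_norm_mul_self_sub_norm_sub_mul_self_div_two,
    lt_div_iff₀ (by positivity), cos_add] at h1
  have hsq : 3 ≤ ‖z - w‖ * ‖z - w‖ := by
    have := mul_self_le_mul_self h3.le hs
    rwa [mul_self_sqrt (by norm_num)] at this
  have ez : ‖z‖ = 2 * cos (al z) := by rw [cos_al hz2]; ring
  have ew : ‖w‖ = 2 * cos (al w) := by rw [cos_al hw2]; ring
  have hc : cos (2 * (al z + al w)) ≥ -1 / 2 := by
    have : cos (2 * π / 3) = -1 / 2 := by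
      have h := cos_pi_sub (π / 3)
      rw [cos_pi_div_three] at h
      rw [show 2 * π / 3 = π - π / 3 by ring, h]
      norm_num
    rw [← this]
    exact cos_le_cos_of_nonneg_of_le_pi (by linarith) (by linarith) (by linarith)
  have e1 : cos (2 * (al z + al w)) = 2 * (cos (al z) * cos (al w) - sin (al z) * sin (al w)) ^ 2 - 1 := by
    rw [cos_two_mul, cos_add]
  have e2 := sin_sq_add_cos_sq (al z)
  have e3 := sin_sq_add_cos_sq (al w)
  rw [ez, ew] at h1
  rw [e1] at hc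
  set p := cos (al z)
  set q := cos (al w)
  set s := sin (al z)
  set t := sin (al w)
  -- the inequality `(4p²+4q²-3)/2 ≤ 4pq(pq-st)` follows from `(pq-st)² ≥ 1/4`
  have key : (2 * p * (2 * p) + 2 * q * (2 * q) - ‖z - w‖ * ‖z - w‖) / 2 ≤
      (p * q - s * t) * (2 * p * (2 * q)) := by
    have e4 : 2 * (p * q - s * t) ^ 2 - 1 = 2 * (2 * p * q * (p * q - s * t)) + 1 - 2 * p ^ 2 - 2 * q ^ 2 := by
      have hs2 : s ^ 2 = 1 - p ^ 2 := by linarith
      have ht2 : t ^ 2 = 1 - q ^ 2 := by linarith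
      have : s ^ 2 * t ^ 2 = (1 - p ^ 2) * (1 - q ^ 2) := by
        rw [hs2, ht2]
      linear_combination 2 * this
    nlinarith
  linarith

theorem abs_arg_exp_le (x : ℝ) : |Complex.arg (Complex.exp (x * Complex.I))| ≤ |x| := by
  by_cases h : |x| < π
  · rw [abs_lt] at h
    have := Complex.arg_mul_cos_add_sin_mul_I (r := 1) one_pos (θ := x) ⟨h.1, h.2.le⟩
    rw [Complex.exp_mul_I]
    simp only [Complex.ofReal_one, one_mul] at this
    rw [this]
  · push Not at h
    exact (Complex.abs_arg_le_pi _).trans h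

/-- the angle between `z` and `w` is at most `|x|` if `x ≡ arg z - arg w` -/
theorem angle_le {z w : ℂ} (hz : z ≠ 0) (hw : w ≠ 0) (x : ℝ) (n : ℤ)
    (h : Complex.arg z - Complex.arg w = x + 2 * π * n) :
    InnerProductGeometry.angle z w ≤ |x| := by
  rw [Complex.angle_eq_abs_arg hz hw]
  have h1 : z / w = ((‖z‖ / ‖w‖ : ℝ) : ℂ) * Complex.exp (x * Complex.I) := by
    have e1 := Complex.norm_mul_exp_arg_mul_I z
    have e2 := Complex.norm_mul_exp_arg_mul_I w
    have e3 : Complex.exp (Complex.arg z * Complex.I) =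
        Complex.exp (Complex.arg w * Complex.I) * Complex.exp (x * Complex.I) := by
      rw [← Complex.exp_add]
      have : (Complex.arg z : ℂ) * Complex.I = Complex.arg w * Complex.I + x * Complex.I +
          n * (2 * π * Complex.I) := by
        have h' : (Complex.arg z : ℂ) = Complex.arg w + x + 2 * π * n := by
          have : Complex.arg z = Complex.arg w + x + 2 * π * n := by linarith
          exact_mod_cast this
        rw [h']; ring
      rw [this, Complex.exp_add _ (n * (2 * π * Complex.I)), Complex.exp_int_mul_two_pi_mul_I, mul_one]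
    have hw' : (‖w‖ : ℂ) ≠ 0 := by
      rw [Complex.ofReal_ne_zero]; exact norm_ne_zero_iff.mpr hw
    have he : Complex.exp (Complex.arg w * Complex.I) ≠ 0 := Complex.exp_ne_zero _
    rw [← e1, ← e2, e3]
    push_cast
    simp only [Complex.norm_mul, Complex.norm_real, Complex.norm_exp_ofReal_mul_I, norm_norm, mul_one]
    field_simp
  rw [h1, Complex.arg_real_mul _ (div_pos (norm_pos_iff.mpr hz) (norm_pos_iff.mpr hw))]
  exact abs_arg_exp_le x

theorem sep_arg {z w : ℂ} (hz : √3 ≤ ‖z‖) (hz2 : ‖z‖ ≤ 2) (hw : √3 ≤ ‖w‖) (hw2 : ‖w‖ ≤ 2)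
    (hs : √3 ≤ ‖z - w‖) (x : ℝ) (n : ℤ)
    (h : Complex.arg z - Complex.arg w = x + 2 * π * n) : al z + al w ≤ |x| := by
  have h3 : (0:ℝ) < √3 := by positivity
  exact (sep_angle hz hz2 hw hw2 hs).trans (angle_le (norm_pos_iff.mp (lt_of_lt_of_le h3 hz))
    (norm_pos_iff.mp (lt_of_lt_of_le h3 hw)) x n h)

/-- disjoint intervals in an interval -/
theorem interval_packing {ι : Type*} (T : Finset ι) (ψ α : ι → ℝ) (A B : ℝ) (hAB : A ≤ B)
    (h1 : ∀ j ∈ T, A ≤ ψ j - α j) (h2 : ∀ j ∈ T, ψ j + α j ≤ B)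
    (h0 : ∀ j ∈ T, 0 ≤ α j)
    (h3 : ∀ j ∈ T, ∀ k ∈ T, j ≠ k → α j + α k ≤ |ψ j - ψ k|) :
    ∑ j ∈ T, 2 * α j ≤ B - A := by
  have hdisj : (T : Set ι).PairwiseDisjoint fun j => Ioo (ψ j - α j) (ψ j + α j) := by
    intro j hj k hk hjk
    rw [Function.onFun, Set.disjoint_left]
    rintro x ⟨hx1, hx2⟩ ⟨hx3, hx4⟩
    have := h3 j hj k hk hjk
    rcases abs_cases (ψ j - ψ k) with ⟨h, _⟩ | ⟨h, _⟩ <;> rw [h] at this <;> linarith
  have hv : volume (⋃ j ∈ T, Ioo (ψ j - α j) (ψ j + α j)) =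
      ∑ j ∈ T, volume (Ioo (ψ j - α j) (ψ j + α j)) :=
    measure_biUnion_finset hdisj fun _ _ => measurableSet_Ioo
  have hsub : (⋃ j ∈ T, Ioo (ψ j - α j) (ψ j + α j)) ⊆ Icc A B := by
    intro x hx
    simp only [mem_iUnion] at hx
    obtain ⟨j, hj, hx1, hx2⟩ := hx
    exact ⟨by linarith [h1 j hj], by linarith [h2 j hj]⟩
  have hle := measure_mono (μ := volume) hsub
  rw [hv, Real.volume_Icc] at hle
  simp only [Real.volume_Ioo] at hle
  rw [← ENNReal.ofReal_sum_of_nonneg (fun j hj => by linarith [h0 j hj]),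
    ENNReal.ofReal_le_ofReal_iff (by linarith)] at hle
  refine le_trans (le_of_eq ?_) hle
  exact Finset.sum_congr rfl fun j _ => by ring

section

variable {ι : Type*} [DecidableEq ι] (J : Finset ι) (z : ι → ℂ)
  (hz : ∀ j ∈ J, √3 ≤ ‖z j‖) (hz2 : ∀ j ∈ J, ‖z j‖ ≤ 2)
  (hs : ∀ j ∈ J, ∀ k ∈ J, j ≠ k → √3 ≤ ‖z j - z k‖)

/-- the angular coordinate relative to `z j₀`, in `[0, 2π)` -/
noncomputable def psi (z : ι → ℂ) (j₀ j : ι) : ℝ :=
  toIcoMod two_pi_pos 0 (Complex.arg (z j) - Complex.arg (z j₀))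

theorem psi_spec (z : ι → ℂ) (j₀ j : ι) : ∃ n : ℤ,
    Complex.arg (z j) - Complex.arg (z j₀) = psi z j₀ j + 2 * π * n := by
  refine ⟨toIcoDiv two_pi_pos 0 (Complex.arg (z j) - Complex.arg (z j₀)), ?_⟩
  unfold psi
  have := toIcoMod_add_toIcoDiv_zsmul two_pi_pos 0 (Complex.arg (z j) - Complex.arg (z j₀))
  rw [zsmul_eq_mul] at this
  linarith

theorem psi_nonneg (z : ι → ℂ) (j₀ j : ι) : 0 ≤ psi z j₀ j :=
  (toIcoMod_mem_Ico two_pi_pos 0 _).1

theorem psi_lt (z : ι → ℂ) (j₀ j : ι) : psi z j₀ j < 2 * π := by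
  have := (toIcoMod_mem_Ico two_pi_pos 0 (Complex.arg (z j) - Complex.arg (z j₀))).2
  rw [zero_add] at this
  exact this

include hz hz2 hs

theorem psi_sep {j₀ j k : ι} (hj : j ∈ J) (hk : k ∈ J) (hjk : j ≠ k) :
    al (z j) + al (z k) ≤ |psi z j₀ j - psi z j₀ k| := by
  obtain ⟨n, hn⟩ := psi_spec z j₀ j
  obtain ⟨m, hm⟩ := psi_spec z j₀ k
  refine sep_arg (hz j hj) (hz2 j hj) (hz k hk) (hz2 k hk) (hs j hj k hk hjk) _ (n - m) ?_
  push_cast
  linarith

theorem psi_low {j₀ j : ι} (hj₀ : j₀ ∈ J) (hj : j ∈ J) (hne : j ≠ j₀) :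
    al (z j₀) + al (z j) ≤ psi z j₀ j := by
  obtain ⟨n, hn⟩ := psi_spec z j₀ j
  have := sep_arg (hz j hj) (hz2 j hj) (hz j₀ hj₀) (hz2 j₀ hj₀) (hs j hj j₀ hj₀ hne) _ n hn
  rw [abs_of_nonneg (psi_nonneg z j₀ j)] at this
  linarith

theorem psi_high {j₀ j : ι} (hj₀ : j₀ ∈ J) (hj : j ∈ J) (hne : j ≠ j₀) :
    psi z j₀ j ≤ 2 * π - al (z j₀) - al (z j) := by
  obtain ⟨n, hn⟩ := psi_spec z j₀ j
  have := sep_arg (hz j hj) (hz2 j hj) (hz j₀ hj₀) (hz2 j₀ hj₀) (hs j hj j₀ hj₀ hne)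
    (psi z j₀ j - 2 * π) (n + 1) (by push_cast; linarith)
  rw [abs_of_nonpos (by linarith [psi_lt z j₀ j])] at this
  linarith

/-- the arcs fit into the circle -/
theorem arcs_total : ∑ j ∈ J, al (z j) ≤ π := by
  rcases J.eq_empty_or_nonempty with rfl | ⟨j₀, hj₀⟩
  · simp [pi_pos.le]
  · have hp := pi_pos
    have h6 := al_le (hz j₀ hj₀)
    have h := interval_packing (J.erase j₀) (psi z j₀) (fun j => al (z j)) (al (z j₀))
      (2 * π - al (z j₀)) (by linarith)
      (fun j hj => by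
        have := psi_low J z hz hz2 hs hj₀ (Finset.mem_of_mem_erase hj) (Finset.ne_of_mem_erase hj)
        linarith)
      (fun j hj => by
        have := psi_high J z hz hz2 hs hj₀ (Finset.mem_of_mem_erase hj) (Finset.ne_of_mem_erase hj)
        linarith)
      (fun j _ => al_nonneg _)
      (fun j hj k hk hjk => psi_sep J z hz hz2 hs (Finset.mem_of_mem_erase hj)
        (Finset.mem_of_mem_erase hk) hjk)
    rw [← Finset.mul_sum] at h
    rw [← Finset.add_sum_erase J _ hj₀]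
    linarith

/-- the position of a neighbour relative to another one -/
theorem arcs_pos (hcard : J.card = 6) (B : ℝ) (hB : ∑ j ∈ J, (π / 6 - al (z j)) ≤ B)
    {j₀ k : ι} (hj₀ : j₀ ∈ J) (hk : k ∈ J) (hne : k ≠ j₀) :
    ∃ m : Fin 6, |psi z j₀ k - m * (π / 3)| ≤ 2 * B := by
  have hp := pi_pos
  have hb : ∀ j ∈ J, 0 ≤ π / 6 - al (z j) := fun j hj => by linarith [al_le (hz j hj)]
  set R := (J.erase j₀).erase k with hR
  have hkm : k ∈ J.erase j₀ := Finset.mem_erase.mpr ⟨hne, hk⟩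
  have hRc : R.card = 4 := by
    rw [hR, Finset.card_erase_of_mem hkm, Finset.card_erase_of_mem hj₀, hcard]
  have hRJ : ∀ j ∈ R, j ∈ J := fun j hj => Finset.mem_of_mem_erase (Finset.mem_of_mem_erase hj)
  have hRk : ∀ j ∈ R, j ≠ k := fun j hj => Finset.ne_of_mem_erase hj
  have hR0 : ∀ j ∈ R, j ≠ j₀ := fun j hj =>
    Finset.ne_of_mem_erase (Finset.mem_of_mem_erase hj)
  set P := R.filter fun j => psi z j₀ j < psi z j₀ k with hP
  set Q := R.filter fun j => ¬ psi z j₀ j < psi z j₀ k with hQ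
  have hcardPQ : P.card + Q.card = 4 := by
    rw [hP, hQ, Finset.card_filter_add_card_filter_not, hRc]
  have hPR : ∀ j ∈ P, j ∈ R := fun j hj => (Finset.mem_filter.mp hj).1
  have hQR : ∀ j ∈ Q, j ∈ R := fun j hj => (Finset.mem_filter.mp hj).1
  have hlo := psi_low J z hz hz2 hs hj₀ hk hne
  have hhi := psi_high J z hz hz2 hs hj₀ hk hne
  -- arcs on one side
  have h1 : ∑ j ∈ P, 2 * al (z j) ≤ (psi z j₀ k - al (z k)) - al (z j₀) := by
    refine interval_packing P (psi z j₀) (fun j => al (z j)) _ _ (by linarith)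
      (fun j hj => ?_) (fun j hj => ?_) (fun j _ => al_nonneg _) (fun j hj l hl hjl =>
        psi_sep J z hz hz2 hs (hRJ j (hPR j hj)) (hRJ l (hPR l hl)) hjl)
    · have := psi_low J z hz hz2 hs hj₀ (hRJ j (hPR j hj)) (hR0 j (hPR j hj))
      linarith
    · have h := psi_sep J z hz hz2 hs (j₀ := j₀) (hRJ j (hPR j hj)) hk (hRk j (hPR j hj))
      have h' := (Finset.mem_filter.mp hj).2
      rw [abs_of_neg (by linarith)] at h
      linarith
  have h2 : ∑ j ∈ Q, 2 * al (z j) ≤ (2 * π - al (z j₀)) - (psi z j₀ k + al (z k)) := by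
    refine interval_packing Q (psi z j₀) (fun j => al (z j)) _ _ (by linarith)
      (fun j hj => ?_) (fun j hj => ?_) (fun j _ => al_nonneg _) (fun j hj l hl hjl =>
        psi_sep J z hz hz2 hs (hRJ j (hQR j hj)) (hRJ l (hQR l hl)) hjl)
    · have h := psi_sep J z hz hz2 hs (j₀ := j₀) (hRJ j (hQR j hj)) hk (hRk j (hQR j hj))
      have h' := (Finset.mem_filter.mp hj).2
      rw [abs_of_nonneg (by linarith)] at h
      linarith
    · have := psi_high J z hz hz2 hs hj₀ (hRJ j (hQR j hj)) (hR0 j (hQR j hj))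
      linarith
  -- the sums of the defects
  have hsumJ : ∑ j ∈ J, (π / 6 - al (z j)) = (π / 6 - al (z j₀)) + ((π / 6 - al (z k)) +
      (∑ j ∈ P, (π / 6 - al (z j)) + ∑ j ∈ Q, (π / 6 - al (z j)))) := by
    rw [← Finset.add_sum_erase J _ hj₀, ← Finset.add_sum_erase (J.erase j₀) _ hkm, ← hR, hP, hQ,
      Finset.sum_filter_add_sum_filter_not]
  have hP0 : 0 ≤ ∑ j ∈ P, (π / 6 - al (z j)) :=
    Finset.sum_nonneg fun j hj => hb j (hRJ j (hPR j hj))
  have hQ0 : 0 ≤ ∑ j ∈ Q, (π / 6 - al (z j)) :=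
    Finset.sum_nonneg fun j hj => hb j (hRJ j (hQR j hj))
  have hb0 := hb j₀ hj₀
  have hbk := hb k hk
  have eP : ∑ j ∈ P, 2 * al (z j) = P.card * (π / 3) - 2 * ∑ j ∈ P, (π / 6 - al (z j)) := by
    rw [Finset.sum_sub_distrib, Finset.sum_const, nsmul_eq_mul, ← Finset.mul_sum]
    ring
  have eQ : ∑ j ∈ Q, 2 * al (z j) = Q.card * (π / 3) - 2 * ∑ j ∈ Q, (π / 6 - al (z j)) := by
    rw [Finset.sum_sub_distrib, Finset.sum_const, nsmul_eq_mul, ← Finset.mul_sum]
    ring
  have hQc : (Q.card : ℝ) = 4 - P.card := by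
    have : (P.card : ℝ) + Q.card = 4 := by exact_mod_cast hcardPQ
    linarith
  have hP5 : P.card + 1 < 6 := by omega
  refine ⟨⟨P.card + 1, hP5⟩, ?_⟩
  push_cast
  rw [abs_le]
  rw [hQc] at eQ
  constructor <;> nlinarith

/-- the arcs of points in a half plane fit into `4π/3` -/
theorem arcs_half (hre : ∀ j ∈ J, (z j).re ≤ 0) : ∑ j ∈ J, 2 * al (z j) ≤ 4 * π / 3 := by
  have hp := pi_pos
  have hn : ∀ j ∈ J, |Complex.arg (-z j)| ≤ π / 2 := fun j hj => by
    rw [Complex.abs_arg_le_pi_div_two_iff, Complex.neg_re]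
    linarith [hre j hj]
  have h := interval_packing J (fun j => Complex.arg (-z j)) (fun j => al (z j)) (-(2 * π / 3))
    (2 * π / 3) (by linarith)
    (fun j hj => by
      have := abs_le.mp (hn j hj)
      linarith [al_le (hz j hj), this.1])
    (fun j hj => by
      have := abs_le.mp (hn j hj)
      linarith [al_le (hz j hj), this.2])
    (fun j _ => al_nonneg _)
    (fun j hj k hk hjk => by
      have h1 := sep_arg (z := -z j) (w := -z k) (by rw [norm_neg]; exact hz j hj)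
        (by rw [norm_neg]; exact hz2 j hj) (by rw [norm_neg]; exact hz k hk)
        (by rw [norm_neg]; exact hz2 k hk)
        (by rw [← norm_neg]; simpa [sub_eq_add_neg, add_comm] using hs j hj k hk hjk)
        (Complex.arg (-z j) - Complex.arg (-z k)) 0 (by push_cast; ring)
      rw [al_neg, al_neg] at h1
      exact h1)
  linarith

/-- **The hexagonal pattern.** If six neighbours have total defect at most `B`, each of them is within
`6 B` of the position obtained from any other one by a rotation by a multiple of `π/3`. -/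
theorem hexagon (hcard : J.card = 6) (B : ℝ) (hB : ∑ j ∈ J, (π / 6 - al (z j)) ≤ B)
    {j₀ k : ι} (hj₀ : j₀ ∈ J) (hk : k ∈ J) :
    ∃ m : Fin 6, ‖z k - Complex.exp (m * (π / 3) * Complex.I) * z j₀‖ ≤ 6 * B := by
  have hp := pi_pos
  have hb : ∀ j ∈ J, 0 ≤ π / 6 - al (z j) := fun j hj => by linarith [al_le (hz j hj)]
  have hB0 : 0 ≤ B := (Finset.sum_nonneg hb).trans hB
  by_cases hne : k = j₀
  · subst hne
    exact ⟨0, by simpa using hB0⟩
  obtain ⟨m, hm⟩ := arcs_pos J z hz hz2 hs hcard B hB hj₀ hk hne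
  refine ⟨m, ?_⟩
  obtain ⟨n, hn⟩ := psi_spec z j₀ k
  have e1 := Complex.norm_mul_exp_arg_mul_I (z k)
  have e2 := Complex.norm_mul_exp_arg_mul_I (z j₀)
  set x := psi z j₀ k with hx
  have e3 : Complex.exp (Complex.arg (z k) * Complex.I) =
      Complex.exp (x * Complex.I) * Complex.exp (Complex.arg (z j₀) * Complex.I) := by
    rw [← Complex.exp_add]
    have : (Complex.arg (z k) : ℂ) * Complex.I = x * Complex.I + Complex.arg (z j₀) * Complex.I +
        n * (2 * π * Complex.I) := by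
      have h' : (Complex.arg (z k) : ℂ) = x + Complex.arg (z j₀) + 2 * π * n := by
        have : Complex.arg (z k) = x + Complex.arg (z j₀) + 2 * π * n := by linarith
        exact_mod_cast this
      rw [h']; ring
    rw [this, Complex.exp_add _ (n * (2 * π * Complex.I)), Complex.exp_int_mul_two_pi_mul_I, mul_one]
  have e4 : z k - Complex.exp (m * (π / 3) * Complex.I) * z j₀ =
      (‖z k‖ * Complex.exp (x * Complex.I) - ‖z j₀‖ * Complex.exp (m * (π / 3) * Complex.I)) *
        Complex.exp (Complex.arg (z j₀) * Complex.I) := by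
    conv_lhs => rw [← e1, ← e2, e3]
    ring
  rw [e4, norm_mul, Complex.norm_exp_ofReal_mul_I, mul_one]
  have e5 : (‖z k‖ : ℂ) * Complex.exp (x * Complex.I) -
      ‖z j₀‖ * Complex.exp (m * (π / 3) * Complex.I) =
      ((‖z k‖ - ‖z j₀‖ : ℝ) : ℂ) * Complex.exp (x * Complex.I) +
        ‖z j₀‖ * (Complex.exp (x * Complex.I) - Complex.exp (m * (π / 3) * Complex.I)) := by
    push_cast; ring
  rw [e5]
  have h1 : |‖z k‖ - ‖z j₀‖| ≤ 2 * B := by
    have ck := cos_al (hz2 k hk)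
    have c0 := cos_al (hz2 j₀ hj₀)
    have hsum : (π / 6 - al (z k)) + (π / 6 - al (z j₀)) ≤ B := by
      refine le_trans ?_ hB
      have hkm : k ∈ J.erase j₀ := Finset.mem_erase.mpr ⟨hne, hk⟩
      rw [← Finset.add_sum_erase J _ hj₀, ← Finset.add_sum_erase (J.erase j₀) _ hkm]
      have : 0 ≤ ∑ j ∈ (J.erase j₀).erase k, (π / 6 - al (z j)) := Finset.sum_nonneg fun j hj =>
        hb j (Finset.mem_of_mem_erase (Finset.mem_of_mem_erase hj))
      linarith
    have h2 : |cos (al (z k)) - cos (al (z j₀))| ≤ |al (z k) - al (z j₀)| :=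
      Real.abs_cos_sub_cos_le _ _
    have h3 : |al (z k) - al (z j₀)| ≤ B := by
      rw [abs_le]
      constructor <;> linarith [hb k hk, hb j₀ hj₀]
    have h4 : ‖z k‖ - ‖z j₀‖ = 2 * (cos (al (z k)) - cos (al (z j₀))) := by
      rw [ck, c0]; ring
    rw [h4, abs_mul, abs_two]
    linarith
  have h2 : ‖Complex.exp (x * Complex.I) - Complex.exp (m * (π / 3) * Complex.I)‖ ≤ 2 * B := by
    have e6 : Complex.exp (x * Complex.I) - Complex.exp (m * (π / 3) * Complex.I) =
        Complex.exp (((m:ℝ) * (π / 3) : ℝ) * Complex.I) *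
          (Complex.exp (Complex.I * ((x - m * (π / 3) : ℝ) : ℂ)) - 1) := by
      rw [mul_sub, mul_one, ← Complex.exp_add]
      congr 1
      · congr 1; push_cast; ring
      · congr 1; push_cast; ring
    rw [e6, norm_mul, Complex.norm_exp_ofReal_mul_I, one_mul]
    exact (Real.norm_exp_I_mul_ofReal_sub_one_le).trans (by rw [Real.norm_eq_abs]; exact hm)
  calc ‖((‖z k‖ - ‖z j₀‖ : ℝ) : ℂ) * Complex.exp (x * Complex.I) +
        ‖z j₀‖ * (Complex.exp (x * Complex.I) - Complex.exp (m * (π / 3) * Complex.I))‖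
      ≤ ‖((‖z k‖ - ‖z j₀‖ : ℝ) : ℂ) * Complex.exp (x * Complex.I)‖ +
        ‖(‖z j₀‖ : ℂ) * (Complex.exp (x * Complex.I) - Complex.exp (m * (π / 3) * Complex.I))‖ :=
        norm_add_le _ _
    _ = |‖z k‖ - ‖z j₀‖| + ‖z j₀‖ *
        ‖Complex.exp (x * Complex.I) - Complex.exp (m * (π / 3) * Complex.I)‖ := by
        rw [norm_mul, norm_mul, Complex.norm_exp_ofReal_mul_I, mul_one, Complex.norm_real,
          Complex.norm_real, Real.norm_eq_abs, norm_norm]
    _ ≤ 2 * B + 2 * (2 * B) := by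
        gcongr
        exact hz2 j₀ hj₀
    _ = 6 * B := by ring

end

end Pool.Agent.H96.HD
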