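import Pool.Agent.H96.HD.Struct

/-!
# Hard disks near close packing: the volume of the configuration space
-/

set_option autoImplicit false

open Real Set MeasureTheory Metric
open scoped ENNReal Nat

namespace Pool.Agent.H96.HD

theorem cls_zero_iff {N : ℕ} (s : Fin N → Option (Fin N × Fin 6)) (k : Fin N) :
    cls s k = 0 ↔ s k = none := by
  unfold cls
  rcases h : s k with _ | ⟨i, m⟩
  · simp
  · simp only
    rcases s i with _ | p <;> simp

theorem sum_weights (N : ℕ) (V : ℝ) :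
    ∑ s : Fin N → Option (Fin N × Fin 6), ∏ k, (if s k = none then V else 1) =
      (V + 6 * N) ^ N := by
  have h := Fintype.sum_pow (fun o : Option (Fin N × Fin 6) => if o = none then V else (1:ℝ)) N
  rw [← h]
  congr 1
  rw [Fintype.sum_option]
  simp
  ring

/-- the product of the weights of a structure -/
theorem prod_wt_le {N : ℕ} {E q L b : ℝ} (hq0 : 0 < q) (hq1 : q ≤ 1)
    (hq : q = 2 * π / b ^ 2) (s : Fin N → Option (Fin N × Fin 6)) (hs : s ∈ Adm N E) :
    ∏ k, wt L b (cls s k) ≤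
      q ^ N * ((4 * π) ^ 6 / q ^ 7) ^ (E / c0) * ∏ k, (if s k = none then L ^ 2 else 1) := by
  obtain ⟨-, h0, h1⟩ := hs
  set a := (Finset.univ.filter fun k => cls s k = 0).card with ha
  set c := (Finset.univ.filter fun k => cls s k = 1).card with hc
  have hp := pi_pos
  have hp3 := pi_gt_three
  have e1 : ∏ k, wt L b (cls s k) = q ^ N * (∏ k, (if cls s k = 0 then L ^ 2 else 1)) *
      (∏ k, (if cls s k = 0 then 1 / q else 1)) * ∏ k, (if cls s k = 1 then 4 * π / q else 1) := by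
    have e2 : (q ^ N : ℝ) = ∏ _k : Fin N, q := by
      rw [Finset.prod_const, Finset.card_univ, Fintype.card_fin]
    rw [e2, ← Finset.prod_mul_distrib, ← Finset.prod_mul_distrib, ← Finset.prod_mul_distrib]
    refine Finset.prod_congr rfl fun k _ => ?_
    unfold wt
    by_cases c0 : cls s k = 0
    · have c1 : cls s k ≠ 1 := by rw [c0]; decide
      simp only [if_pos c0, if_neg c1]
      field_simp
    · by_cases c1 : cls s k = 1
      · simp only [if_neg c0, if_pos c1]
        field_simp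
      · simp only [if_neg c0, if_neg c1]
        rw [hq]
        ring
  have e3 : (∏ k, (if cls s k = 0 then 1 / q else 1)) = (1 / q) ^ a := by
    rw [← Finset.prod_filter, Finset.prod_const]
  have e4 : (∏ k, (if cls s k = 1 then 4 * π / q else 1)) = (4 * π / q) ^ c := by
    rw [← Finset.prod_filter, Finset.prod_const]
  have e5 : (∏ k, (if cls s k = 0 then L ^ 2 else 1)) = ∏ k, (if s k = none then L ^ 2 else 1) := by
    refine Finset.prod_congr rfl fun k _ => ?_
    simp only [cls_zero_iff]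
  have hP0 : 0 ≤ ∏ k, (if s k = none then L ^ 2 else 1) :=
    Finset.prod_nonneg fun k _ => by split_ifs <;> positivity
  rw [e1, e3, e4, e5]
  have h4q : 1 ≤ 4 * π / q := by
    rw [le_div_iff₀ hq0]
    linarith
  have h6 : (4 * π / q) ^ c ≤ (4 * π / q) ^ (6 * a) := pow_le_pow_right₀ h4q h1
  have hM1 : 1 ≤ (4 * π) ^ 6 / q ^ 7 := by
    rw [le_div_iff₀ (by positivity), one_mul]
    calc q ^ 7 ≤ 1 := pow_le_one₀ hq0.le hq1
      _ ≤ (4 * π) ^ 6 := one_le_pow₀ (by linarith)
  have h7 : ((1 / q) ^ a * (4 * π / q) ^ (6 * a) : ℝ) = ((4 * π) ^ 6 / q ^ 7) ^ a := by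
    rw [pow_mul, ← mul_pow]
    congr 1
    rw [div_pow]
    field_simp
  have h8 : ((4 * π) ^ 6 / q ^ 7) ^ a ≤ ((4 * π) ^ 6 / q ^ 7) ^ (E / c0) := by
    rw [← Real.rpow_natCast]
    refine Real.rpow_le_rpow_of_exponent_le hM1 ?_
    rw [le_div_iff₀ c0_pos]
    exact h0
  calc q ^ N * (∏ k, (if s k = none then L ^ 2 else 1)) * (1 / q) ^ a * (4 * π / q) ^ c
      ≤ q ^ N * (∏ k, (if s k = none then L ^ 2 else 1)) * (1 / q) ^ a * (4 * π / q) ^ (6 * a) := by
        gcongr
    _ = q ^ N * (∏ k, (if s k = none then L ^ 2 else 1)) *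
        ((1 / q) ^ a * (4 * π / q) ^ (6 * a)) := by ring
    _ ≤ q ^ N * (∏ k, (if s k = none then L ^ 2 else 1)) *
        ((4 * π) ^ 6 / q ^ 7) ^ (E / c0) := by
        rw [h7]
        gcongr
    _ = _ := by ring

theorem volume_Kc_le_sum {N : ℕ} (hN : 0 < N) {L : ℝ} (hL : 0 ≤ L)
    (hE : 0 < (L + 2) ^ 2 - N * v0) :
    volume (Kc N L) ≤ ENNReal.ofReal (Real.exp N *
      ∑ s ∈ (Set.toFinite (Adm N ((L + 2) ^ 2 - N * v0))).toFinset,
        ∏ k, wt L (N / (36 * C1 * ((L + 2) ^ 2 - N * v0))) (cls s k)) := by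
  set E := (L + 2) ^ 2 - N * v0 with hEdef
  set S := (Set.toFinite (Adm N E)).toFinset with hS
  have hC1 := C1_pos
  have hA : 0 < 36 * C1 * E := by positivity
  have hsub : Kc N L ⊆ ⋃ s ∈ S, (1 - pmap s : (Fin N → ℂ) →ₗ[ℝ] (Fin N → ℂ)) ⁻¹'
      Err s L (36 * C1 * E) := by
    intro x hx
    obtain ⟨s, hs, h⟩ := exists_struct hL hx
    simp only [mem_iUnion]
    exact ⟨s, (Set.Finite.mem_toFinset _).mpr hs, h⟩
  have hw : ∀ s : Fin N → Option (Fin N × Fin 6),
      0 ≤ ∏ k, wt L (N / (36 * C1 * E)) (cls s k) := fun s =>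
    Finset.prod_nonneg fun k _ => by
      unfold wt
      split_ifs <;> positivity
  calc volume (Kc N L) ≤ volume (⋃ s ∈ S, (1 - pmap s : (Fin N → ℂ) →ₗ[ℝ] (Fin N → ℂ)) ⁻¹'
      Err s L (36 * C1 * E)) := measure_mono hsub
    _ ≤ ∑ s ∈ S, volume ((1 - pmap s : (Fin N → ℂ) →ₗ[ℝ] (Fin N → ℂ)) ⁻¹'
      Err s L (36 * C1 * E)) := measure_biUnion_finset_le _ _
    _ ≤ ∑ s ∈ S, ENNReal.ofReal (Real.exp N *
        ∏ k, wt L (N / (36 * C1 * E)) (cls s k)) := by
        refine Finset.sum_le_sum fun s hs => ?_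
        obtain ⟨⟨r, hr⟩, -, -⟩ := (Set.Finite.mem_toFinset _).mp hs
        rw [volume_preimage s r hr]
        exact volume_Err_le s hL hA hN
    _ = _ := by
        rw [← ENNReal.ofReal_sum_of_nonneg fun s _ => mul_nonneg (Real.exp_pos _).le (hw s),
          ← Finset.mul_sum]

theorem volume_Kc_le {N : ℕ} (hN : 0 < N) {L q : ℝ} (hL : 0 ≤ L)
    (hE : 0 < (L + 2) ^ 2 - N * v0)
    (hq : q = 2 * π * (36 * C1 * (((L + 2) ^ 2 - N * v0) / N)) ^ 2) (hq1 : q ≤ 1) :
    (volume (Kc N L)).toReal ≤ Real.exp N * (q ^ N * ((4 * π) ^ 6 / q ^ 7) ^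
      (((L + 2) ^ 2 - N * v0) / c0) * (L ^ 2 + 6 * N) ^ N) := by
  have hC1 := C1_pos
  have hN' : (0:ℝ) < N := by exact_mod_cast hN
  have hp := pi_pos
  set E := (L + 2) ^ 2 - N * v0 with hEdef
  have hq0 : 0 < q := by rw [hq]; positivity
  have h := volume_Kc_le_sum hN hL hE
  rw [← hEdef] at h
  refine (ENNReal.toReal_mono ENNReal.ofReal_ne_top h).trans ?_
  have hw : ∀ s : Fin N → Option (Fin N × Fin 6),
      0 ≤ ∏ k, wt L (N / (36 * C1 * E)) (cls s k) := fun s =>
    Finset.prod_nonneg fun k _ => by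
      unfold wt
      split_ifs <;> positivity
  rw [ENNReal.toReal_ofReal (mul_nonneg (Real.exp_pos _).le (Finset.sum_nonneg fun s _ => hw s))]
  refine mul_le_mul_of_nonneg_left ?_ (Real.exp_pos _).le
  have hqb : q = 2 * π / ((N:ℝ) / (36 * C1 * E)) ^ 2 := by
    rw [hq]
    field_simp
  calc ∑ s ∈ (Set.toFinite (Adm N E)).toFinset, ∏ k, wt L (N / (36 * C1 * E)) (cls s k)
      ≤ ∑ s ∈ (Set.toFinite (Adm N E)).toFinset, q ^ N * ((4 * π) ^ 6 / q ^ 7) ^ (E / c0) *
          ∏ k, (if s k = none then L ^ 2 else 1) :=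
        Finset.sum_le_sum fun s hs => prod_wt_le hq0 hq1 hqb s ((Set.Finite.mem_toFinset _).mp hs)
    _ ≤ ∑ s : Fin N → Option (Fin N × Fin 6), q ^ N * ((4 * π) ^ 6 / q ^ 7) ^ (E / c0) *
          ∏ k, (if s k = none then L ^ 2 else 1) := by
        refine Finset.sum_le_sum_of_subset_of_nonneg (Finset.subset_univ _) fun s _ _ => ?_
        refine mul_nonneg (by positivity) (Finset.prod_nonneg fun k _ => ?_)
        split_ifs <;> positivity
    _ = _ := by rw [← Finset.mul_sum, sum_weights]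

theorem volume_Kc_triv (N : ℕ) {L : ℝ} (hL : 0 ≤ L) :
    (volume (Kc N L)).toReal ≤ (L ^ 2) ^ N := by
  have h1 : Kc N L ⊆ Set.pi univ fun _ => Sq L := fun x hx i _ => hx.1 i
  have h2 : volume (Set.pi univ fun _ : Fin N => Sq L) = ENNReal.ofReal ((L ^ 2) ^ N) := by
    rw [volume_pi_pi]
    simp only [volume_Sq hL]
    rw [Finset.prod_const, Finset.card_univ, Fintype.card_fin]
    exact (ENNReal.ofReal_pow (by positivity) N).symm
  have h3 := measure_mono (μ := volume) h1
  rw [h2] at h3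
  calc (volume (Kc N L)).toReal ≤ (ENNReal.ofReal ((L ^ 2) ^ N)).toReal :=
        ENNReal.toReal_mono ENNReal.ofReal_ne_top h3
    _ = _ := ENNReal.toReal_ofReal (by positivity)

/-- **The main estimate** in the plane. -/
theorem main_plane (B : ℝ) (hB : 0 < B) : ∃ C : ℝ, 0 < C ∧ ∀ N : ℕ, 0 < N → ∀ L : ℝ, 0 ≤ L →
    0 < (L + 2) ^ 2 - N * v0 → (L + 2) ^ 2 - N * v0 ≤ B * N →
    (volume (Kc N L)).toReal ≤ N ! * (C * (((L + 2) ^ 2 - N * v0) / N) ^ 2) ^ N := by
  have hC1 := C1_pos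
  have hc0 := c0_pos
  have hp := pi_pos
  set c2 : ℝ := 2 * π * (36 * C1) ^ 2 with hc2
  have hc2p : 0 < c2 := by positivity
  set D : ℝ := Real.exp ((B * |6 * Real.log (4 * π) - 7 * Real.log c2| + 14) / c0) with hD
  have hD1 : 1 ≤ D := by
    rw [hD]
    exact Real.one_le_exp (by positivity)
  refine ⟨c2 * ((B + 9) * Real.exp 1 * Real.exp 1 * D), by positivity, fun N hN L hL hE hE3 => ?_⟩
  have hN' : (0:ℝ) < N := by exact_mod_cast hN
  set E := (L + 2) ^ 2 - N * v0 with hEdef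
  set ε := E / N with hε
  have hε0 : 0 < ε := by positivity
  have hε3 : ε ≤ B := by rw [hε, div_le_iff₀ hN']; exact hE3
  have hEε : E = ε * N := by rw [hε]; field_simp
  have hv0 : v0 ≤ 3 := by
    unfold v0
    have : √3 ≤ 2 := by
      rw [Real.sqrt_le_left (by norm_num)]
      norm_num
    linarith
  have hL2 : L ^ 2 ≤ (B + 3) * N := by
    have h1 : (L + 2) ^ 2 = E + N * v0 := by rw [hEdef]; ring
    have h2 : N * v0 ≤ N * 3 := by gcongr
    nlinarith
  have hfac : (N:ℝ) ^ N ≤ Real.exp 1 ^ N * N ! := by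
    have h := Real.pow_div_factorial_le_exp (N:ℝ) hN'.le N
    have hf : (0:ℝ) < N ! := by exact_mod_cast Nat.factorial_pos N
    rw [div_le_iff₀ hf] at h
    rwa [← Real.exp_nat_mul, mul_one]
  set q := 2 * π * (36 * C1 * (E / N)) ^ 2 with hq
  have hqe : q = c2 * ε ^ 2 := by rw [hq, hc2, hε]; ring
  have hq0 : 0 < q := by rw [hqe]; positivity
  by_cases hq1 : q ≤ 1
  · have h := volume_Kc_le hN hL hE hq hq1
    rw [← hEdef] at h
    refine h.trans ?_
    have h1 : ((4 * π) ^ 6 / q ^ 7) ^ (E / c0) ≤ D ^ N := by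
      have hb : 0 < (4 * π) ^ 6 / q ^ 7 := by positivity
      rw [Real.rpow_def_of_pos hb, hD, ← Real.exp_nat_mul, Real.exp_le_exp]
      have e1 : Real.log ((4 * π) ^ 6 / q ^ 7) =
          (6 * Real.log (4 * π) - 7 * Real.log c2) - 14 * Real.log ε := by
        rw [Real.log_div (by positivity) (by positivity), Real.log_pow, Real.log_pow, hqe,
          Real.log_mul hc2p.ne' (by positivity), Real.log_pow]
        push_cast
        ring
      rw [e1, hEε]
      have e2 : -(ε * Real.log ε) ≤ 1 := by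
        have := Real.one_sub_inv_le_log_of_pos hε0
        have h3 : ε * (1 - ε⁻¹) ≤ ε * Real.log ε := by gcongr
        rw [mul_sub, mul_one, mul_inv_cancel₀ hε0.ne'] at h3
        linarith
      have e3 : ε * (6 * Real.log (4 * π) - 7 * Real.log c2) ≤
          B * |6 * Real.log (4 * π) - 7 * Real.log c2| := by
        calc ε * (6 * Real.log (4 * π) - 7 * Real.log c2)
            ≤ ε * |6 * Real.log (4 * π) - 7 * Real.log c2| := by
              gcongr
              exact le_abs_self _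
          _ ≤ _ := by gcongr
      have e4 : ((6 * Real.log (4 * π) - 7 * Real.log c2) - 14 * Real.log ε) * (ε * N / c0) =
          N * ((ε * (6 * Real.log (4 * π) - 7 * Real.log c2) + 14 * (-(ε * Real.log ε))) / c0) := by
        field_simp
        ring
      rw [e4]
      gcongr
      linarith
    have h2 : (L ^ 2 + 6 * N) ^ N ≤ (B + 9) ^ N * (Real.exp 1 ^ N * N !) := by
      calc (L ^ 2 + 6 * N) ^ N ≤ ((B + 9) * (N:ℝ)) ^ N := by
            gcongr
            linarith
        _ = (B + 9) ^ N * (N:ℝ) ^ N := by rw [mul_pow]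
        _ ≤ _ := by gcongr
    have h3 : Real.exp N = Real.exp 1 ^ N := by rw [← Real.exp_nat_mul, mul_one]
    calc Real.exp N * (q ^ N * ((4 * π) ^ 6 / q ^ 7) ^ (E / c0) * (L ^ 2 + 6 * N) ^ N)
        ≤ Real.exp N * (q ^ N * D ^ N * ((B + 9) ^ N * (Real.exp 1 ^ N * N !))) := by gcongr
      _ = N ! * (c2 * ((B + 9) * Real.exp 1 * Real.exp 1 * D) * ε ^ 2) ^ N := by
          rw [h3, hqe]
          simp only [mul_pow]
          ring
  · push Not at hq1
    have h := volume_Kc_triv N hL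
    refine h.trans ?_
    have h1 : (L ^ 2) ^ N ≤ ((B + 3) * Real.exp 1) ^ N * N ! := by
      calc (L ^ 2) ^ N ≤ ((B + 3) * (N:ℝ)) ^ N := by gcongr
        _ = (B + 3) ^ N * (N:ℝ) ^ N := by rw [mul_pow]
        _ ≤ (B + 3) ^ N * (Real.exp 1 ^ N * N !) := by gcongr
        _ = _ := by rw [mul_pow]; ring
    refine h1.trans ?_
    rw [mul_comm]
    have he1 : 1 ≤ Real.exp 1 := Real.one_le_exp zero_le_one
    have h2 : (B + 3) * Real.exp 1 ≤ c2 * ((B + 9) * Real.exp 1 * Real.exp 1 * D) * ε ^ 2 := by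
      calc (B + 3) * Real.exp 1 ≤ (B + 9) * Real.exp 1 * 1 * 1 * 1 := by linarith
        _ ≤ (B + 9) * Real.exp 1 * Real.exp 1 * D * (c2 * ε ^ 2) := by
            rw [hqe] at hq1
            gcongr
        _ = _ := by ring
    exact mul_le_mul_of_nonneg_left (pow_le_pow_left₀ (by positivity) h2 N) (by positivity)

end Pool.Agent.H96.HD
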