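import Pool.Agent.H96.HD.Transfer

/-!
# Hard disks near close packing: the thermodynamic limit
-/

set_option autoImplicit false

open Real Set MeasureTheory Metric Filter Topology
open scoped ENNReal Nat

namespace Pool.Agent.H96.HD

open Pool.Agent.K4H96.HS

/-- **Two-sided bounds in finite volume.** -/
theorem two_sided : ∃ C : ℝ, 1 ≤ C ∧ ∀ a : ℝ, 0 < a → ∀ N : ℕ, 0 < N → ∀ L : ℝ, 0 ≤ L →
    C * a ^ 2 / √N ≤ L ^ 2 / N - 2 * √3 * a ^ 2 → L ^ 2 / N - 2 * √3 * a ^ 2 ≤ 4 * a ^ 2 →
    N ! * ((L ^ 2 / N - 2 * √3 * a ^ 2) ^ 2 / (C * a ^ 2)) ^ N ≤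
      (volume (Conf N 2 (2 * a) (Box 2 L))).toReal ∧
    (volume (Conf N 2 (2 * a) (Box 2 L))).toReal ≤
      N ! * (C * (L ^ 2 / N - 2 * √3 * a ^ 2) ^ 2 / a ^ 2) ^ N := by
  obtain ⟨C₀, hC₀, hup⟩ := upper_fv 8 (by norm_num)
  refine ⟨max 100 (4 * C₀), le_trans (by norm_num) (le_max_left _ _), fun a ha N hN L hL h1 h2 => ?_⟩
  set C := max 100 (4 * C₀) with hC
  have hC100 : 100 ≤ C := le_max_left _ _
  have hC4 : 4 * C₀ ≤ C := le_max_right _ _
  have h3 : (0:ℝ) < √3 := by positivity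
  have h33 : √3 * √3 = 3 := Real.mul_self_sqrt (by norm_num)
  have h3l : 1.7 ≤ √3 := by
    rw [Real.le_sqrt' (by norm_num)]
    norm_num
  have h3u : √3 ≤ 1.7321 := by
    rw [Real.sqrt_le_left (by norm_num)]
    norm_num
  have hN' : (0:ℝ) < N := by exact_mod_cast hN
  have hN1 : (1:ℝ) ≤ N := by exact_mod_cast hN
  set n := √(N:ℝ) with hn
  have hn0 : 0 < n := Real.sqrt_pos.mpr hN'
  have hn1 : 1 ≤ n := by
    rw [hn, Real.one_le_sqrt]
    exact hN1
  have hnn : n * n = N := Real.mul_self_sqrt hN'.le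
  set x := L ^ 2 / N - 2 * √3 * a ^ 2 with hx
  have hx0 : 0 < x := lt_of_lt_of_le (by positivity) h1
  have hL2 : L ^ 2 = N * (x + 2 * √3 * a ^ 2) := by
    rw [hx]
    field_simp
    ring
  have hxn : 100 * a ^ 2 / n ≤ x := by
    refine le_trans ?_ h1
    gcongr
  have hxn' : 100 * a ^ 2 ≤ x * n := by rwa [div_le_iff₀ hn0] at hxn
  have hL3 : L ≤ 3 * a * n := by
    refine (pow_le_pow_iff_left₀ hL (by positivity) two_ne_zero).mp ?_
    rw [hL2, ← hnn]
    have : x + 2 * √3 * a ^ 2 ≤ 9 * a ^ 2 := by nlinarith [sq_nonneg a, pow_pos ha 2]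
    nlinarith [mul_pos hn0 hn0]
  constructor
  · -- lower bound
    set M := √(2 * √3 * a ^ 2 * N) + 2 * a with hM
    have hs : √(2 * √3 * a ^ 2 * N) = √(2 * √3) * a * n := by
      rw [Real.sqrt_mul (by positivity), Real.sqrt_mul (by positivity), Real.sqrt_sq ha.le]
    set t := √(2 * √3) with ht
    have htt : t * t = 2 * √3 := Real.mul_self_sqrt (by positivity)
    have ht0 : 0 < t := Real.sqrt_pos.mpr (by positivity)
    have ht2 : t ≤ 2 := by
      refine (pow_le_pow_iff_left₀ ht0.le (by norm_num) two_ne_zero).mp ?_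
      rw [sq, htt]
      linarith
    -- `L - t a n ≥ x n / (5 a)`
    have h5 : x * n / (5 * a) ≤ L - t * a * n := by
      have e1 : (L - t * a * n) * (L + t * a * n) = n * n * x := by
        have : (L - t * a * n) * (L + t * a * n) = L ^ 2 - (t * t) * a ^ 2 * (n * n) := by ring
        rw [this, hL2, htt, hnn]
        ring
      have e2 : L + t * a * n ≤ 5 * a * n := by nlinarith [mul_pos ha hn0]
      have e3 : 0 < L + t * a * n := by positivity
      have e4 : 0 ≤ L - t * a * n := by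
        by_contra hcon
        push Not at hcon
        have : (L - t * a * n) * (L + t * a * n) < 0 := mul_neg_of_neg_of_pos hcon e3
        rw [e1] at this
        have : 0 < n * n * x := by positivity
        linarith
      rw [div_le_iff₀ (by positivity)]
      have e5 : n * n * x ≤ (L - t * a * n) * (5 * a * n) := by
        rw [← e1]
        gcongr
      have e6 : n * (x * n) ≤ n * ((L - t * a * n) * (5 * a)) := by nlinarith
      exact le_of_mul_le_mul_left e6 hn0
    have h6 : x * n / (10 * a) ≤ L - M := by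
      have : 2 * a ≤ x * n / (10 * a) := by
        rw [le_div_iff₀ (by positivity)]
        nlinarith
      have e7 : x * n / (5 * a) = x * n / (10 * a) + x * n / (10 * a) := by
        field_simp
        norm_num
      rw [hM, hs]
      linarith
    have h7 : 0 < x * n / (10 * a) := by positivity
    have h8 := lower_fv ha N hN L (by rw [← hM]; linarith)
    rw [← hM] at h8
    refine le_trans ?_ h8
    have h9 : ((N ! : ℕ) : ℝ) ≤ (N:ℝ) ^ N := by exact_mod_cast Nat.factorial_le_pow N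
    calc (N ! : ℝ) * (x ^ 2 / (C * a ^ 2)) ^ N ≤ (N:ℝ) ^ N * (x ^ 2 / (100 * a ^ 2)) ^ N := by
          gcongr
      _ = (x * n / (10 * a)) ^ (2 * N) := by
          rw [← mul_pow, pow_mul]
          congr 1
          rw [← hnn]
          field_simp
          norm_num
      _ ≤ (L - M) ^ (2 * N) := by gcongr
  · -- upper bound
    set y := (L + 4 * a / √3) ^ 2 / N - 2 * √3 * a ^ 2 with hy
    have h43 : 4 * a / √3 ≤ 2.4 * a := by
      rw [div_le_iff₀ h3]
      nlinarith
    have h430 : 0 < 4 * a / √3 := by positivity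
    have hyx : y ≤ 2 * x := by
      have e1 : (L + 4 * a / √3) ^ 2 ≤ L ^ 2 + 21 * a ^ 2 * n := by
        have e2 : (L + 4 * a / √3) ^ 2 = L ^ 2 + 2 * L * (4 * a / √3) + (4 * a / √3) ^ 2 := by ring
        have e3 : 2 * L * (4 * a / √3) ≤ 2 * (3 * a * n) * (2.4 * a) := by gcongr
        have e4 : (4 * a / √3) ^ 2 ≤ (2.4 * a) ^ 2 := by gcongr
        have e5 : (2.4 * a) ^ 2 ≤ 5.76 * a ^ 2 * n := by
          have : a ^ 2 ≤ a ^ 2 * n := by nlinarith [pow_pos ha 2]
          nlinarith
        rw [e2]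
        nlinarith
      have e6 : (L + 4 * a / √3) ^ 2 / N ≤ (L ^ 2 + 21 * a ^ 2 * n) / N := by gcongr
      have e7 : (L ^ 2 + 21 * a ^ 2 * n) / N = L ^ 2 / N + 21 * a ^ 2 / n := by
        rw [← hnn]
        field_simp
      have e8 : 21 * a ^ 2 / n ≤ x := by
        refine le_trans ?_ hxn
        gcongr
        norm_num
      rw [hy]
      linarith
    have hyx' : x ≤ y := by
      rw [hx, hy]
      gcongr
      linarith
    have h4 := hup a ha N hN L hL (by rw [← hy]; linarith) (by rw [← hy]; nlinarith)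
    rw [← hy] at h4
    refine h4.trans ?_
    have h5 : C₀ * y ^ 2 / a ^ 2 ≤ C * x ^ 2 / a ^ 2 := by
      have e1 : y ^ 2 ≤ 4 * x ^ 2 := by nlinarith
      have e2 : C₀ * y ^ 2 ≤ C * x ^ 2 := by
        calc C₀ * y ^ 2 ≤ C₀ * (4 * x ^ 2) := by gcongr
          _ = 4 * C₀ * x ^ 2 := by ring
          _ ≤ C * x ^ 2 := by gcongr
      gcongr
    have hy0 : 0 < y := by linarith
    gcongr

end Pool.Agent.H96.HD
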