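import Pool.Agent.H96.HD.Phi
import Pool.Agent.H96.HD.Arcs

/-!
# Hard disks near close packing: the area inequality

The area of the intersection of two unit disks, the Bonferroni inequality, and the resulting
inequality for the sum of the local defects of a packing.
-/

set_option autoImplicit false

open Real Set MeasureTheory Metric
open scoped ENNReal

namespace Pool.Agent.H96.HD

theorem integral_seg {h : ℝ} (h0 : 0 ≤ h) (h1 : h ≤ 1) :
    ∫ x in h..1, 2 * √(1 - x ^ 2) = phi (arccos h) := by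
  have hF : ∀ x ∈ Ioo h 1, HasDerivAt (fun y => y * √(1 - y ^ 2) - arccos y) (2 * √(1 - x ^ 2)) x := by
    intro x hx
    have hx1 : 0 < 1 - x ^ 2 := by nlinarith [hx.1, hx.2]
    have hs : 0 < √(1 - x ^ 2) := sqrt_pos.mpr hx1
    have hd1 : HasDerivAt (fun y => √(1 - y ^ 2)) ((-(2 * x)) / (2 * √(1 - x ^ 2))) x := by
      have : HasDerivAt (fun y : ℝ => 1 - y ^ 2) (-(2 * x)) x := by
        have := (hasDerivAt_pow 2 x).const_sub 1
        simpa using this
      exact this.sqrt hx1.ne'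
    have hd2 := (hasDerivAt_id x).mul hd1
    have hd3 := hasDerivAt_arccos (x := x) (by linarith [hx.1]) (by linarith [hx.2])
    have hd4 := hd2.sub hd3
    refine HasDerivAt.congr_deriv (f := fun y => y * √(1 - y ^ 2) - arccos y) hd4 ?_
    simp only [id]
    have hsq : √(1 - x ^ 2) * √(1 - x ^ 2) = 1 - x ^ 2 := mul_self_sqrt hx1.le
    field_simp
    nlinarith
  have hcont : ContinuousOn (fun y => y * √(1 - y ^ 2) - arccos y) (Icc h 1) := by
    fun_prop
  have hint : IntervalIntegrable (fun x : ℝ => 2 * √(1 - x ^ 2)) volume h 1 :=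
    Continuous.intervalIntegrable (by fun_prop) _ _
  rw [intervalIntegral.integral_eq_sub_of_hasDerivAt_of_le h1 hcont hF hint]
  unfold phi
  rw [sin_arccos, cos_arccos (by linarith) h1, arccos_one]
  norm_num
  ring

/-- the closed segment of the unit disk at height `h` -/
def Seg (h : ℝ) : Set ℂ := {w | ‖w‖ < 1 ∧ h ≤ w.re}

theorem volume_Seg {h : ℝ} (h0 : 0 ≤ h) (h1 : h ≤ 1) :
    volume (Seg h) = ENNReal.ofReal (phi (arccos h)) := by
  have hmp := Complex.volume_preserving_equiv_real_prod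
  set R : Set (ℝ × ℝ) := regionBetween (fun x => -√(1 - x ^ 2)) (fun x => √(1 - x ^ 2)) (Icc h 1)
    with hR
  have hset : Seg h = Complex.measurableEquivRealProd ⁻¹' R := by
    ext w
    simp only [Seg, hR, regionBetween, mem_preimage, mem_ofPred_eq, Complex.measurableEquivRealProd_apply,
      mem_Icc, mem_Ioo]
    have hn : ‖w‖ < 1 ↔ w.im ^ 2 < 1 - w.re ^ 2 := by
      rw [← sq_lt_one_iff₀ (norm_nonneg w), Complex.sq_norm, Complex.normSq_apply]
      constructor <;> intro h <;> nlinarith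
    rw [hn]
    constructor
    · rintro ⟨h2, h3⟩
      have h4 : 0 ≤ w.im ^ 2 := sq_nonneg _
      refine ⟨⟨h3, ?_⟩, ?_, ?_⟩
      · nlinarith
      · exact (abs_lt.mp ((lt_sqrt (abs_nonneg _)).mpr (by rwa [sq_abs]))).1
      · exact (abs_lt.mp ((lt_sqrt (abs_nonneg _)).mpr (by rwa [sq_abs]))).2
    · rintro ⟨⟨h3, _⟩, h4, h5⟩
      have := (lt_sqrt (abs_nonneg _)).mp (abs_lt.mpr ⟨h4, h5⟩)
      rw [sq_abs] at this
      exact ⟨this, h3⟩
  rw [hset, hmp.measure_preimage_equiv]
  rw [hR, show (volume : Measure (ℝ × ℝ)) = (volume : Measure ℝ).prod volume from rfl,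
    volume_regionBetween_eq_integral]
  · congr 1
    rw [← integral_seg h0 h1, intervalIntegral.integral_of_le h1, ← integral_Icc_eq_integral_Ioc]
    refine integral_congr_ae (Filter.Eventually.of_forall fun x => ?_)
    simp only [Pi.sub_apply]
    ring
  · exact (Continuous.continuousOn (by fun_prop)).integrableOn_compact isCompact_Icc
  · exact (Continuous.continuousOn (by fun_prop)).integrableOn_compact isCompact_Icc
  · exact measurableSet_Icc
  · intro x _
    have := sqrt_nonneg (1 - x ^ 2)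
    linarith

theorem volume_lens (z : ℂ) (hz : z ≠ 0) :
    volume (ball (0:ℂ) 1 ∩ ball z 1) ≤ ENNReal.ofReal (2 * phi (al z)) := by
  by_cases h2 : 2 ≤ ‖z‖
  · have : ball (0:ℂ) 1 ∩ ball z 1 = ∅ := by
      rw [← disjoint_iff_inter_eq_empty]
      exact ball_disjoint_ball (by rw [dist_zero_left]; linarith)
    rw [this]
    simp
  push Not at h2
  have hz0 : 0 < ‖z‖ := norm_pos_iff.mpr hz
  set u : ℂ := (starRingEnd ℂ) z / ‖z‖ with hu
  have hun : ‖u‖ = 1 := by
    rw [hu, norm_div, RCLike.norm_conj, Complex.norm_real, norm_norm, div_self hz0.ne']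
  have huz : u * z = ‖z‖ := by
    have hne : (‖z‖ : ℂ) ≠ 0 := by exact_mod_cast hz0.ne'
    rw [hu, div_mul_eq_mul_div, div_eq_iff hne, mul_comm, Complex.mul_conj, Complex.normSq_eq_norm_sq]
    push_cast
    ring
  have hh0 : 0 ≤ ‖z‖ / 2 := by positivity
  have hh1 : ‖z‖ / 2 ≤ 1 := by linarith
  have hseg := volume_Seg hh0 hh1
  have hrot : MeasurePreserving (fun w : ℂ => u * w) volume volume := by
    have := (rotation ⟨u, by simp [Submonoid.unitSphere, hun]⟩).measurePreserving
    exact this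
  have hrot2 : MeasurePreserving (fun w : ℂ => u * (z - w)) volume volume :=
    hrot.comp (volume.measurePreserving_sub_left z)
  have hmeas : MeasurableSet (Seg (‖z‖ / 2)) := by
    have h1 : MeasurableSet {w : ℂ | ‖w‖ < 1} := measurableSet_lt measurable_norm measurable_const
    have h3 : MeasurableSet {w : ℂ | ‖z‖ / 2 ≤ w.re} :=
      measurableSet_le measurable_const Complex.measurable_re
    exact h1.inter h3
  have hsub : ball (0:ℂ) 1 ∩ ball z 1 ⊆
      (fun w : ℂ => u * w) ⁻¹' (Seg (‖z‖ / 2)) ∪ (fun w : ℂ => u * (z - w)) ⁻¹' (Seg (‖z‖ / 2)) := by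
    rintro w ⟨hw1, hw2⟩
    rw [mem_ball, dist_zero_right] at hw1
    rw [mem_ball, dist_comm, dist_eq_norm] at hw2
    rcases le_total (‖z‖ / 2) (u * w).re with h | h
    · left
      refine ⟨?_, h⟩
      rw [norm_mul, hun, one_mul]
      exact hw1
    · right
      refine ⟨?_, ?_⟩
      · rw [norm_mul, hun, one_mul]
        exact hw2
      · show ‖z‖ / 2 ≤ (u * (z - w)).re
        rw [mul_sub, huz, Complex.sub_re, Complex.ofReal_re]
        linarith
  calc volume (ball (0:ℂ) 1 ∩ ball z 1)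
      ≤ volume ((fun w : ℂ => u * w) ⁻¹' (Seg (‖z‖ / 2)) ∪
        (fun w : ℂ => u * (z - w)) ⁻¹' (Seg (‖z‖ / 2))) := measure_mono hsub
    _ ≤ volume ((fun w : ℂ => u * w) ⁻¹' (Seg (‖z‖ / 2))) +
        volume ((fun w : ℂ => u * (z - w)) ⁻¹' (Seg (‖z‖ / 2))) := measure_union_le _ _
    _ = volume (Seg (‖z‖ / 2)) + volume (Seg (‖z‖ / 2)) := by
        rw [hrot.measure_preimage hmeas.nullMeasurableSet,
          hrot2.measure_preimage hmeas.nullMeasurableSet]
    _ = ENNReal.ofReal (2 * phi (al z)) := by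
        have hphi : 0 ≤ phi (al z) := by
          have := hseg
          unfold phi
          have h1 : sin (al z) ≤ al z := sin_le (al_nonneg z)
          have h3 : cos (al z) ≤ 1 := cos_le_one _
          have h4 : 0 ≤ sin (al z) := sin_nonneg_of_nonneg_of_le_pi (al_nonneg z) (arccos_le_pi _)
          nlinarith
        rw [hseg, two_mul, ENNReal.ofReal_add]
        · rfl
        · exact hphi
        · exact hphi

/-- **Bonferroni inequality** -/
theorem bonferroni {ι X : Type*} [DecidableEq ι] [MeasurableSpace X] (μ : Measure X)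
    (B : ι → Set X) (hB : ∀ i, MeasurableSet (B i)) (s : Finset ι) :
    2 * ∑ i ∈ s, μ (B i) ≤ 2 * μ (⋃ i ∈ s, B i) + ∑ i ∈ s, ∑ j ∈ s.erase i, μ (B i ∩ B j) := by
  induction s using Finset.induction_on with
  | empty => simp
  | insert a s ha ih =>
    have e1 : (⋃ i ∈ insert a s, B i) = B a ∪ ⋃ i ∈ s, B i := by
      rw [Finset.set_biUnion_insert]
    have hU : MeasurableSet (⋃ i ∈ s, B i) := Finset.measurableSet_biUnion s fun i _ => hB i
    have e2 := measure_union_add_inter (μ := μ) (B a) hU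
    have e3 : μ (B a ∩ ⋃ i ∈ s, B i) ≤ ∑ j ∈ s, μ (B a ∩ B j) := by
      rw [inter_iUnion₂]
      exact measure_biUnion_finset_le s _
    have e4 : ∑ i ∈ insert a s, ∑ j ∈ (insert a s).erase i, μ (B i ∩ B j) =
        2 * ∑ j ∈ s, μ (B a ∩ B j) + ∑ i ∈ s, ∑ j ∈ s.erase i, μ (B i ∩ B j) := by
      rw [Finset.sum_insert ha, Finset.erase_insert ha]
      have : ∑ i ∈ s, ∑ j ∈ (insert a s).erase i, μ (B i ∩ B j) =
          ∑ i ∈ s, (μ (B a ∩ B i) + ∑ j ∈ s.erase i, μ (B i ∩ B j)) := by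
        refine Finset.sum_congr rfl fun i hi => ?_
        have hne : a ≠ i := fun h => ha (h ▸ hi)
        rw [Finset.erase_insert_of_ne hne, Finset.sum_insert, inter_comm]
        exact fun h => ha (Finset.mem_of_mem_erase h)
      rw [this, Finset.sum_add_distrib]
      ring
    rw [Finset.sum_insert ha, e1, e4, mul_add]
    calc 2 * μ (B a) + 2 * ∑ i ∈ s, μ (B i)
        ≤ 2 * μ (B a) + (2 * μ (⋃ i ∈ s, B i) + ∑ i ∈ s, ∑ j ∈ s.erase i, μ (B i ∩ B j)) := by
          gcongr
      _ = 2 * (μ (B a) + μ (⋃ i ∈ s, B i)) + ∑ i ∈ s, ∑ j ∈ s.erase i, μ (B i ∩ B j) := by ring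
      _ = 2 * (μ (B a ∪ ⋃ i ∈ s, B i) + μ (B a ∩ ⋃ i ∈ s, B i)) +
          ∑ i ∈ s, ∑ j ∈ s.erase i, μ (B i ∩ B j) := by rw [e2]
      _ ≤ 2 * (μ (B a ∪ ⋃ i ∈ s, B i) + ∑ j ∈ s, μ (B a ∩ B j)) +
          ∑ i ∈ s, ∑ j ∈ s.erase i, μ (B i ∩ B j) := by gcongr
      _ = 2 * μ (B a ∪ ⋃ i ∈ s, B i) +
          (2 * ∑ j ∈ s, μ (B a ∩ B j) + ∑ i ∈ s, ∑ j ∈ s.erase i, μ (B i ∩ B j)) := by ring

/-- the square of side `L` -/
def Sq (L : ℝ) : Set ℂ := {w | w.re ∈ Icc 0 L ∧ w.im ∈ Icc 0 L}

theorem volume_rect (A B C D : ℝ) :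
    volume {w : ℂ | w.re ∈ Icc A B ∧ w.im ∈ Icc C D} =
      ENNReal.ofReal (B - A) * ENNReal.ofReal (D - C) := by
  have hmp := Complex.volume_preserving_equiv_real_prod
  have hset : {w : ℂ | w.re ∈ Icc A B ∧ w.im ∈ Icc C D} =
      Complex.measurableEquivRealProd ⁻¹' (Icc A B ×ˢ Icc C D) := by
    ext w
    simp only [mem_ofPred_eq, mem_preimage, Complex.measurableEquivRealProd_apply, mem_prod]
  rw [hset, hmp.measure_preimage_equiv,
    show (volume : Measure (ℝ × ℝ)) = (volume : Measure ℝ).prod volume from rfl,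
    Measure.prod_prod, Real.volume_Icc, Real.volume_Icc]

/-- area of the Voronoi cell of the hexagonal packing with minimal distance `√3` -/
noncomputable def v0 : ℝ := 3 * √3 / 2

theorem v0_eq : v0 = π - 6 * phi (π / 6) := by
  rw [phi_pi_six]
  unfold v0
  ring

/-- the local defect of the point `i` -/
noncomputable def defect {N : ℕ} (x : Fin N → ℂ) (i : Fin N) : ℝ :=
  6 * phi (π / 6) - ∑ j ∈ Finset.univ.erase i, phi (al (x j - x i))

/-- **The area inequality**: the sum of the local defects is at most the free area. -/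
theorem sum_defect_le {N : ℕ} (L : ℝ) (hL : 0 ≤ L) (x : Fin N → ℂ) (hx : ∀ i, x i ∈ Sq L)
    (hne : ∀ i j, i ≠ j → x i ≠ x j) :
    ∑ i, defect x i ≤ (L + 2) ^ 2 - N * v0 := by
  have hb := bonferroni volume (fun i => ball (x i) 1) (fun _ => measurableSet_ball)
    (Finset.univ : Finset (Fin N))
  have h1 : volume (⋃ i ∈ (Finset.univ : Finset (Fin N)), ball (x i) 1) ≤
      ENNReal.ofReal ((L + 2) ^ 2) := by
    have hsub : (⋃ i ∈ (Finset.univ : Finset (Fin N)), ball (x i) 1) ⊆
        {w : ℂ | w.re ∈ Icc (-1) (L + 1) ∧ w.im ∈ Icc (-1) (L + 1)} := by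
      intro w hw
      simp only [mem_iUnion] at hw
      obtain ⟨i, _, hi⟩ := hw
      rw [mem_ball, dist_eq_norm] at hi
      have hre := (abs_lt.mp ((Complex.abs_re_le_norm (w - x i)).trans_lt hi))
      have him := (abs_lt.mp ((Complex.abs_im_le_norm (w - x i)).trans_lt hi))
      rw [Complex.sub_re] at hre
      rw [Complex.sub_im] at him
      obtain ⟨⟨a1, a2⟩, a3, a4⟩ := hx i
      refine ⟨⟨?_, ?_⟩, ?_, ?_⟩ <;> linarith
    refine (measure_mono hsub).trans (le_of_eq ?_)
    rw [volume_rect, ← ENNReal.ofReal_mul (by linarith)]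
    congr 1
    ring
  have h2 : ∀ i j, i ≠ j → volume (ball (x i) 1 ∩ ball (x j) 1) ≤
      ENNReal.ofReal (2 * phi (al (x j - x i))) := by
    intro i j hij
    have hset : ball (x i) 1 ∩ ball (x j) 1 =
        (fun w => w - x i) ⁻¹' (ball (0:ℂ) 1 ∩ ball (x j - x i) 1) := by
      ext w
      simp only [mem_inter_iff, mem_ball, mem_preimage, dist_eq_norm, sub_zero,
        sub_sub_sub_cancel_right]
    rw [hset, (measurePreserving_sub_right volume (x i)).measure_preimage
      (measurableSet_ball.inter measurableSet_ball).nullMeasurableSet]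
    exact volume_lens _ (sub_ne_zero.mpr (hne j i hij.symm))
  have hphi0 : ∀ z : ℂ, 0 ≤ phi (al z) := fun z => by
    unfold phi
    have h1 : sin (al z) ≤ al z := sin_le (al_nonneg z)
    have h3 : cos (al z) ≤ 1 := cos_le_one _
    have h4 : 0 ≤ sin (al z) := sin_nonneg_of_nonneg_of_le_pi (al_nonneg z) (arccos_le_pi _)
    nlinarith
  have h3 : ∑ i, ∑ j ∈ Finset.univ.erase i, volume (ball (x i) 1 ∩ ball (x j) 1) ≤
      ENNReal.ofReal (∑ i, ∑ j ∈ Finset.univ.erase i, 2 * phi (al (x j - x i))) := by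
    rw [ENNReal.ofReal_sum_of_nonneg (fun i _ => Finset.sum_nonneg fun j _ =>
      mul_nonneg two_pos.le (hphi0 _))]
    refine Finset.sum_le_sum fun i _ => ?_
    rw [ENNReal.ofReal_sum_of_nonneg (fun j _ => mul_nonneg two_pos.le (hphi0 _))]
    exact Finset.sum_le_sum fun j hj => h2 i j (Finset.ne_of_mem_erase hj).symm
  have h4 : ∀ i, volume (ball (x i) 1) = ENNReal.ofReal π := fun i => by
    rw [Complex.volume_ball, ENNReal.ofReal_one, one_pow, one_mul, ← NNReal.coe_real_pi,
      ENNReal.ofReal_coe_nnreal]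
  have h5 : 2 * ∑ i : Fin N, volume (ball (x i) 1) = ENNReal.ofReal (2 * (N * π)) := by
    simp only [h4]
    rw [Finset.sum_const, Finset.card_univ, Fintype.card_fin, nsmul_eq_mul,
      ENNReal.ofReal_mul two_pos.le, ENNReal.ofReal_mul (by positivity), ENNReal.ofReal_natCast]
    norm_num
  have hS0 : 0 ≤ ∑ i, ∑ j ∈ Finset.univ.erase i, 2 * phi (al (x j - x i)) :=
    Finset.sum_nonneg fun i _ => Finset.sum_nonneg fun j _ => mul_nonneg two_pos.le (hphi0 _)
  have h6 : ENNReal.ofReal (2 * (N * π)) ≤ ENNReal.ofReal (2 * (L + 2) ^ 2 +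
      ∑ i, ∑ j ∈ Finset.univ.erase i, 2 * phi (al (x j - x i))) := by
    rw [← h5, ENNReal.ofReal_add (by positivity) hS0]
    refine hb.trans (add_le_add ?_ h3)
    rw [ENNReal.ofReal_mul two_pos.le, ENNReal.ofReal_ofNat]
    gcongr
  rw [ENNReal.ofReal_le_ofReal_iff (by positivity)] at h6
  have h7 : ∑ i, ∑ j ∈ Finset.univ.erase i, 2 * phi (al (x j - x i)) =
      2 * ∑ i, ∑ j ∈ Finset.univ.erase i, phi (al (x j - x i)) := by
    rw [Finset.mul_sum]
    exact Finset.sum_congr rfl fun i _ => by rw [Finset.mul_sum]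
  rw [h7] at h6
  have h8 : ∑ i, defect x i = N * (6 * phi (π / 6)) -
      ∑ i, ∑ j ∈ Finset.univ.erase i, phi (al (x j - x i)) := by
    unfold defect
    rw [Finset.sum_sub_distrib, Finset.sum_const, Finset.card_univ, Fintype.card_fin, nsmul_eq_mul]
  rw [h8, v0_eq]
  linarith

end Pool.Agent.H96.HD
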