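import Mathlib

/-!
# Hard disks near close packing: the segment function

`phi α = α - sin α cos α` is the area of the segment of half-angle `α` of the unit disk.
-/

set_option autoImplicit false

open Real Set

namespace Pool.Agent.H96.HD

/-- area of the circular segment of half-angle `α` of the unit disk -/
noncomputable def phi (α : ℝ) : ℝ := α - sin α * cos α

theorem phi_zero : phi 0 = 0 := by simp [phi]

theorem hasDerivAt_phi (x : ℝ) : HasDerivAt phi (2 * sin x ^ 2) x := by
  have h := (hasDerivAt_id x).sub ((hasDerivAt_sin x).mul (hasDerivAt_cos x))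
  refine HasDerivAt.congr_deriv (f := phi) h ?_
  have := sin_sq_add_cos_sq x
  nlinarith

theorem phi_strictConvex : StrictConvexOn ℝ (Icc 0 (π / 2)) phi := by
  refine StrictMonoOn.strictConvexOn_of_deriv (convex_Icc _ _) ?_ ?_
  · exact fun x _ => (hasDerivAt_phi x).continuousAt.continuousWithinAt
  · rw [interior_Icc]
    intro x hx y hy hxy
    rw [(hasDerivAt_phi x).deriv, (hasDerivAt_phi y).deriv]
    have h1 : 0 < sin x := sin_pos_of_pos_of_lt_pi hx.1 (by linarith [hx.2, pi_pos])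
    have h2 : sin x < sin y := sin_lt_sin_of_lt_of_le_pi_div_two (by linarith [hx.1, pi_pos]) hy.2.le hxy
    nlinarith

theorem phi_pi_six : phi (π / 6) = π / 6 - √3 / 4 := by
  unfold phi
  rw [sin_pi_div_six, cos_pi_div_six]
  ring

/-- slope of `phi` on `[0, π/7]` -/
noncomputable def kap : ℝ := phi (π / 7) / (π / 7)

/-- slope of `phi` on `[π/7, π/6]` -/
noncomputable def sig : ℝ := (phi (π / 6) - phi (π / 7)) / (π / 6 - π / 7)

theorem kap_lt : kap < phi (π / 6) / (π / 6) := by
  have hp := pi_pos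
  have h := phi_strictConvex.slope_strict_mono_adjacent (x := 0) (y := π / 7) (z := π / 6)
    ⟨le_rfl, by positivity⟩ ⟨by positivity, by linarith⟩ (by positivity) (by linarith)
  rw [phi_zero, sub_zero, sub_zero] at h
  unfold kap
  rw [div_lt_div_iff₀ (by positivity) (by linarith)] at h
  rw [div_lt_div_iff₀ (by positivity) (by positivity)]
  nlinarith

theorem kap_lt_sig : kap < sig := by
  have hp := pi_pos
  have h := phi_strictConvex.slope_strict_mono_adjacent (x := 0) (y := π / 7) (z := π / 6)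
    ⟨le_rfl, by positivity⟩ ⟨by positivity, by linarith⟩ (by positivity) (by linarith)
  rw [phi_zero, sub_zero, sub_zero] at h
  exact h

theorem kap_nonneg : 0 ≤ kap := by
  have hp := pi_pos
  unfold kap phi
  have h1 : sin (π / 7) ≤ π / 7 := (sin_lt (by positivity)).le
  have h2 : cos (π / 7) ≤ 1 := cos_le_one _
  have h3 : 0 ≤ sin (π / 7) := sin_nonneg_of_nonneg_of_le_pi (by positivity) (by linarith)
  have : 0 ≤ π / 7 - sin (π / 7) * cos (π / 7) := by nlinarith
  positivity

theorem phi_le_kap {α : ℝ} (h0 : 0 ≤ α) (h1 : α ≤ π / 7) : phi α ≤ kap * α := by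
  have hp := pi_pos
  have hc := phi_strictConvex.convexOn
  have ha : 0 ≤ 1 - α / (π / 7) := by
    rw [sub_nonneg, div_le_one (by positivity)]
    exact h1
  have hb : 0 ≤ α / (π / 7) := by positivity
  have h := hc.2 (x := 0) ⟨le_rfl, by positivity⟩ (y := π / 7) ⟨by positivity, by linarith⟩ ha hb
    (by ring)
  rw [smul_eq_mul, smul_eq_mul, smul_eq_mul, smul_eq_mul, mul_zero, zero_add, phi_zero, mul_zero,
    zero_add, div_mul_cancel₀ _ (by positivity)] at h
  unfold kap
  calc phi α ≤ α / (π / 7) * phi (π / 7) := h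
    _ = phi (π / 7) / (π / 7) * α := by ring

theorem phi_le_sig {α : ℝ} (h0 : π / 7 ≤ α) (h1 : α ≤ π / 6) :
    phi α ≤ phi (π / 6) - sig * (π / 6 - α) := by
  have hp := pi_pos
  have hc := phi_strictConvex.convexOn
  have hd : 0 < π / 6 - π / 7 := by linarith
  have ha : 0 ≤ (π / 6 - α) / (π / 6 - π / 7) := div_nonneg (by linarith) hd.le
  have hb : 0 ≤ 1 - (π / 6 - α) / (π / 6 - π / 7) := by
    rw [sub_nonneg, div_le_one hd]
    linarith
  have h := hc.2 (x := π / 7) ⟨by positivity, by linarith⟩ (y := π / 6)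
    ⟨by positivity, by linarith⟩ ha hb (by ring)
  have e : ((π / 6 - α) / (π / 6 - π / 7)) • (π / 7) +
      (1 - (π / 6 - α) / (π / 6 - π / 7)) • (π / 6) = α := by
    simp only [smul_eq_mul]
    field_simp
    ring
  rw [e] at h
  refine h.trans (le_of_eq ?_)
  simp only [smul_eq_mul, sig]
  ring

/-- the constants of the stability lemma -/
noncomputable def c0 : ℝ := π / 6 * (phi (π / 6) / (π / 6) - kap)

noncomputable def C1 : ℝ := 1 / (sig - kap)

theorem c0_pos : 0 < c0 := mul_pos (by positivity) (sub_pos.mpr kap_lt)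

theorem C1_pos : 0 < C1 := one_div_pos.mpr (sub_pos.mpr kap_lt_sig)

/-- **Stability of the six neighbours.** -/
theorem stability {ι : Type*} [DecidableEq ι] (J : Finset ι) (α : ι → ℝ)
    (h0 : ∀ j ∈ J, 0 ≤ α j) (h1 : ∀ j ∈ J, α j ≤ π / 6) (hs : ∑ j ∈ J, α j ≤ π) :
    0 ≤ 6 * phi (π / 6) - ∑ j ∈ J, phi (α j) ∧
    (6 * phi (π / 6) - ∑ j ∈ J, phi (α j) < c0 →
      (J.filter fun j => π / 7 < α j).card = 6 ∧
      ∑ j ∈ J.filter (fun j => π / 7 < α j), (π / 6 - α j) ≤
        C1 * (6 * phi (π / 6) - ∑ j ∈ J, phi (α j))) := by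
  have hp := pi_pos
  set S := J.filter fun j => π / 7 < α j with hS
  set T := J.filter fun j => ¬ π / 7 < α j with hT
  set m := S.card with hm
  have hsplit : ∀ g : ι → ℝ, ∑ j ∈ J, g j = ∑ j ∈ S, g j + ∑ j ∈ T, g j := fun g => by
    rw [hS, hT, Finset.sum_filter_add_sum_filter_not]
  have hST : ∑ j ∈ T, α j ≤ π - ∑ j ∈ S, α j := by
    have := hsplit α
    linarith
  have hT0 : 0 ≤ ∑ j ∈ T, α j := Finset.sum_nonneg fun j hj => h0 j (Finset.mem_filter.mp hj).1
  have hm7 : m < 7 := by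
    by_contra hcon
    push Not at hcon
    have h2 : (m : ℝ) * (π / 7) < ∑ j ∈ S, α j := by
      have hne : S.Nonempty := Finset.card_pos.mp (by omega)
      have := Finset.sum_lt_sum_of_nonempty hne (f := fun _ => π / 7) (g := α)
        (fun j hj => (Finset.mem_filter.mp hj).2)
      simpa [Finset.sum_const, hm] using this
    have h3 : (7 : ℝ) ≤ m := by exact_mod_cast hcon
    nlinarith
  have hphiS : ∑ j ∈ S, phi (α j) ≤ m * phi (π / 6) - sig * (m * (π / 6) - ∑ j ∈ S, α j) := by
    have : ∑ j ∈ S, phi (α j) ≤ ∑ j ∈ S, (phi (π / 6) - sig * (π / 6 - α j)) :=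
      Finset.sum_le_sum fun j hj => phi_le_sig (Finset.mem_filter.mp hj).2.le
        (h1 j (Finset.mem_filter.mp hj).1)
    refine this.trans (le_of_eq ?_)
    rw [Finset.sum_sub_distrib, ← Finset.mul_sum, Finset.sum_sub_distrib, Finset.sum_const,
      Finset.sum_const, nsmul_eq_mul, nsmul_eq_mul]
  have hphiT : ∑ j ∈ T, phi (α j) ≤ kap * (π - ∑ j ∈ S, α j) := by
    calc ∑ j ∈ T, phi (α j) ≤ ∑ j ∈ T, kap * α j :=
          Finset.sum_le_sum fun j hj => phi_le_kap (h0 j (Finset.mem_filter.mp hj).1)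
            (not_lt.mp (Finset.mem_filter.mp hj).2)
      _ = kap * ∑ j ∈ T, α j := by rw [Finset.mul_sum]
      _ ≤ _ := mul_le_mul_of_nonneg_left hST kap_nonneg
  have hSle : ∑ j ∈ S, α j ≤ m * (π / 6) := by
    have : ∑ j ∈ S, α j ≤ ∑ _j ∈ S, (π / 6) := Finset.sum_le_sum fun j hj =>
      h1 j (Finset.mem_filter.mp hj).1
    simpa [Finset.sum_const, hm] using this
  set A := ∑ j ∈ S, α j with hA
  have hk6 : 0 < phi (π / 6) / (π / 6) - kap := sub_pos.mpr kap_lt
  have hks : 0 < sig - kap := sub_pos.mpr kap_lt_sig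
  have hphi6 : phi (π / 6) = (phi (π / 6) / (π / 6)) * (π / 6) := by
    field_simp
  have hkey : (6 - m) * c0 + (sig - kap) * (m * (π / 6) - A) ≤
      6 * phi (π / 6) - ∑ j ∈ J, phi (α j) := by
    rw [hsplit]
    have e : (6 - (m:ℝ)) * c0 + (sig - kap) * (m * (π / 6) - A) = 6 * phi (π / 6) -
        ((m * phi (π / 6) - sig * (m * (π / 6) - A)) + kap * (π - A)) := by
      unfold c0
      have : π / 6 * (phi (π / 6) / (π / 6) - kap) = phi (π / 6) - π / 6 * kap := by
        rw [mul_sub]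
        congr 1
        field_simp
      rw [this]
      ring
    rw [e]
    linarith
  have hm6 : (m : ℝ) ≤ 6 := by
    have : m ≤ 6 := by omega
    exact_mod_cast this
  have hc0 := c0_pos
  have hB : 0 ≤ m * (π / 6) - A := by linarith
  refine ⟨?_, fun hlt => ?_⟩
  · refine le_trans ?_ hkey
    have h5 : 0 ≤ (6 - (m:ℝ)) * c0 := mul_nonneg (by linarith) hc0.le
    have h6 : 0 ≤ (sig - kap) * (m * (π / 6) - A) := mul_nonneg hks.le hB
    linarith
  · have hmeq : m = 6 := by
      by_contra hne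
      have h5 : m ≤ 5 := by omega
      have h6 : (m : ℝ) ≤ 5 := by exact_mod_cast h5
      have h7 : c0 ≤ (6 - (m:ℝ)) * c0 := by nlinarith
      have h8 : 0 ≤ (sig - kap) * (m * (π / 6) - A) := mul_nonneg hks.le hB
      linarith
    refine ⟨hmeq, ?_⟩
    have h9 : ∑ j ∈ S, (π / 6 - α j) = m * (π / 6) - A := by
      rw [Finset.sum_sub_distrib, Finset.sum_const, nsmul_eq_mul]
    rw [h9]
    unfold C1
    rw [div_mul_eq_mul_div, one_mul, le_div_iff₀ hks]
    rw [hmeq] at hkey ⊢
    norm_num at hkey ⊢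
    linarith

end Pool.Agent.H96.HD
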