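import Pool.Agent.H96.HD.Lens

/-!
# Hard disks near close packing: the unimodular change of variables

A parent function without cycles defines a linear map of determinant one; the volume of the
configurations which follow the pattern up to a total error `A` is bounded.
-/

set_option autoImplicit false

open Real Set MeasureTheory Metric
open scoped ENNReal

namespace Pool.Agent.H96.HD

/-- the sixth roots of unity -/
noncomputable def om (m : Fin 6) : ℂ := Complex.exp (m * (π / 3) * Complex.I)

section

variable {N : ℕ} (s : Fin N → Option (Fin N × Fin 6))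

/-- the predicted position of the point `k` -/
noncomputable def predict (x : Fin N → ℂ) (k : Fin N) : ℂ :=
  match s k with
  | none => 0
  | some (i, m) => match s i with
    | none => x i
    | some (j, _) => x i + om m * (x j - x i)

/-- the prediction as a linear map -/
noncomputable def pmap : (Fin N → ℂ) →ₗ[ℝ] (Fin N → ℂ) where
  toFun x k := predict s x k
  map_add' x y := by
    funext k
    simp only [predict, Pi.add_apply]
    split
    · simp
    · split
      · rfl
      · ring
  map_smul' c x := by
    funext k
    simp only [predict, Pi.smul_apply, RingHom.id_apply]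
    split
    · simp
    · split
      · rfl
      · simp only [Complex.real_smul]
        ring

theorem pmap_apply (x : Fin N → ℂ) (k : Fin N) : pmap s x k = predict s x k := rfl

theorem pmap_pow_apply (r : Fin N → ℕ) (hr : ∀ k i m, s k = some (i, m) → r i < r k) (n : ℕ)
    (x : Fin N → ℂ) (k : Fin N) (hk : r k < n) : ((pmap s) ^ n) x k = 0 := by
  induction n generalizing k with
  | zero => omega
  | succ n ih =>
    rw [pow_succ', Module.End.mul_apply, pmap_apply]
    unfold predict
    split
    · rfl
    · rename_i i m hi
      have h1 := hr k i m hi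
      split
      · exact ih i (by omega)
      · rename_i j m' hj
        have h2 := hr i j m' hj
        rw [ih i (by omega), ih j (by omega)]
        simp

theorem pmap_nilpotent (r : Fin N → ℕ) (hr : ∀ k i m, s k = some (i, m) → r i < r k) :
    IsNilpotent (pmap s) := by
  refine ⟨Finset.univ.sup r + 1, ?_⟩
  refine LinearMap.ext fun x => funext fun k => ?_
  rw [pmap_pow_apply s r hr _ x k (Nat.lt_succ_of_le (Finset.le_sup (Finset.mem_univ k)))]
  rfl

theorem det_one_sub_pmap (r : Fin N → ℕ) (hr : ∀ k i m, s k = some (i, m) → r i < r k) :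
    LinearMap.det (1 - pmap s) = 1 := by
  have h1 := (pmap_nilpotent s r hr).charpoly_eq_X_pow_finrank
  have h2 := LinearMap.eval_charpoly (pmap s) 1
  rw [h1, Polynomial.eval_pow, Polynomial.eval_X, one_pow, map_one] at h2
  exact h2.symm

theorem volume_preimage (r : Fin N → ℕ) (hr : ∀ k i m, s k = some (i, m) → r i < r k)
    (W : Set (Fin N → ℂ)) : volume ((1 - pmap s : (Fin N → ℂ) →ₗ[ℝ] (Fin N → ℂ)) ⁻¹' W) = volume W := by
  have h := det_one_sub_pmap s r hr
  rw [Measure.addHaar_preimage_linearMap volume (by rw [h]; exact one_ne_zero), h]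
  simp

/-- `0` for roots, `1` for children of roots, `2` for the others -/
def cls (k : Fin N) : Fin 3 :=
  match s k with
  | none => 0
  | some (i, _) => match s i with
    | none => 1
    | some _ => 2

/-- the set of the error vectors -/
def Err (L A : ℝ) : Set (Fin N → ℂ) :=
  {y | (∀ k, cls s k = 0 → y k ∈ Sq L) ∧ (∀ k, cls s k = 1 → ‖y k‖ ≤ 2) ∧
    ∑ k ∈ Finset.univ.filter (fun k => cls s k = 2), ‖y k‖ ≤ A}

/-- majorants of the indicator functions -/
noncomputable def maj (L b : ℝ) (c : Fin 3) : ℂ → ℝ :=
  if c = 0 then (Sq L).indicator 1 else if c = 1 then (closedBall 0 2).indicator 1 else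
    fun y => Real.exp (-b * ‖y‖)

/-- their integrals -/
noncomputable def wt (L b : ℝ) (c : Fin 3) : ℝ :=
  if c = 0 then L ^ 2 else if c = 1 then 4 * π else 2 * π / b ^ 2

theorem measurableSet_Sq (L : ℝ) : MeasurableSet (Sq L) :=
  (Complex.measurable_re measurableSet_Icc).inter (Complex.measurable_im measurableSet_Icc)

theorem volume_Sq {L : ℝ} (hL : 0 ≤ L) : volume (Sq L) = ENNReal.ofReal (L ^ 2) := by
  have := volume_rect 0 L 0 L
  unfold Sq
  rw [this, ← ENNReal.ofReal_mul (by linarith)]
  congr 1
  ring

theorem integral_exp_norm {b : ℝ} (hb : 0 < b) : ∫ y : ℂ, Real.exp (-b * ‖y‖) = 2 * π / b ^ 2 := by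
  have h := Complex.integral_exp_neg_mul_rpow (p := 1) (b := b) le_rfl hb
  simp only [rpow_one, div_one] at h
  rw [h]
  have hg : Real.Gamma (2 + 1) = 2 := by
    have := Real.Gamma_nat_eq_factorial 2
    norm_num [Nat.factorial] at this ⊢
  rw [hg, rpow_neg hb.le, rpow_two]
  ring

theorem integral_maj {L b : ℝ} (hL : 0 ≤ L) (hb : 0 < b) (c : Fin 3) :
    ∫ y, maj L b c y = wt L b c := by
  unfold maj wt
  split_ifs
  · rw [integral_indicator_one (measurableSet_Sq L), measureReal_def, volume_Sq hL,
      ENNReal.toReal_ofReal (by positivity)]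
  · rw [integral_indicator_one measurableSet_closedBall, measureReal_def,
      Complex.volume_closedBall, ENNReal.toReal_mul, ENNReal.toReal_pow]
    rw [ENNReal.toReal_ofReal two_pos.le]
    simp
    ring
  · exact integral_exp_norm hb

theorem integrable_maj {L b : ℝ} (hL : 0 ≤ L) (hb : 0 < b) (c : Fin 3) :
    Integrable (maj L b c) := by
  unfold maj
  split_ifs
  · refine (integrable_indicator_iff (measurableSet_Sq L)).mpr ?_
    refine integrableOn_const ?_
    rw [volume_Sq hL]
    exact ENNReal.ofReal_ne_top
  · refine (integrable_indicator_iff measurableSet_closedBall).mpr ?_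
    refine integrableOn_const ?_
    exact measure_closedBall_lt_top.ne
  · by_contra hcon
    have h1 := integral_exp_norm hb
    rw [integral_undef hcon] at h1
    have : 0 < 2 * π / b ^ 2 := by positivity
    linarith

theorem maj_nonneg (L b : ℝ) (c : Fin 3) (y : ℂ) : 0 ≤ maj L b c y := by
  unfold maj
  split_ifs
  · exact indicator_nonneg (fun _ _ => zero_le_one) y
  · exact indicator_nonneg (fun _ _ => zero_le_one) y
  · positivity

theorem volume_Err_le {L A : ℝ} (hL : 0 ≤ L) (hA : 0 < A) (hN : 0 < N) :
    volume (Err s L A) ≤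
      ENNReal.ofReal (Real.exp N * ∏ k, wt L (N / A) (cls s k)) := by
  have hN' : (0:ℝ) < N := by exact_mod_cast hN
  set b : ℝ := N / A with hb
  have hb0 : 0 < b := by positivity
  set G : (Fin N → ℂ) → ℝ := fun y => ∏ k, maj L b (cls s k) (y k) with hG
  have hGint : Integrable G :=
    Integrable.fintype_prod (f := fun k y => maj L b (cls s k) y)
      fun k => integrable_maj hL hb0 (cls s k)
  have hGval : ∫ y, G y = ∏ k, wt L b (cls s k) := by
    rw [hG, integral_fintype_prod_volume_eq_prod (f := fun k y => maj L b (cls s k) y)]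
    exact Finset.prod_congr rfl fun k _ => integral_maj hL hb0 (cls s k)
  have hG0 : 0 ≤ᵐ[volume] G := Filter.Eventually.of_forall fun y =>
    Finset.prod_nonneg fun k _ => maj_nonneg L b _ _
  have hsub : Err s L A ⊆ {y | Real.exp (-N) ≤ G y} := by
    rintro y ⟨h0, h1, h2⟩
    have e1 : G y = ∏ k, (if cls s k = 2 then Real.exp (-b * ‖y k‖) else 1) := by
      rw [hG]
      refine Finset.prod_congr rfl fun k _ => ?_
      unfold maj
      by_cases c0 : cls s k = 0
      · rw [if_pos c0, if_neg (by rw [c0]; decide), indicator_of_mem (h0 k c0)]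
        rfl
      · rw [if_neg c0]
        by_cases c1 : cls s k = 1
        · rw [if_pos c1, if_neg (by rw [c1]; decide), indicator_of_mem]
          · rfl
          · rw [mem_closedBall, dist_zero_right]
            exact h1 k c1
        · rw [if_neg c1, if_pos]
          generalize cls s k = c at *
          fin_cases c <;> simp_all
    have e2 : G y = Real.exp (-b * ∑ k ∈ Finset.univ.filter (fun k => cls s k = 2), ‖y k‖) := by
      rw [e1, ← Finset.prod_filter, ← Real.exp_sum, Finset.mul_sum]
    show Real.exp (-N) ≤ G y
    rw [e2, Real.exp_le_exp]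
    have : b * ∑ k ∈ Finset.univ.filter (fun k => cls s k = 2), ‖y k‖ ≤ b * A := by gcongr
    have e3 : b * A = N := by rw [hb]; field_simp
    rw [neg_mul]
    linarith
  have hmark := mul_meas_ge_le_integral_of_nonneg hG0 hGint (Real.exp (-N))
  rw [hGval] at hmark
  have hfin : volume {y | Real.exp (-N) ≤ G y} ≠ ⊤ := by
    have := hGint.measure_ge_lt_top (Real.exp_pos (-N))
    exact this.ne
  refine (measure_mono hsub).trans ?_
  rw [← ENNReal.ofReal_toReal hfin]
  refine ENNReal.ofReal_le_ofReal ?_
  rw [measureReal_def] at hmark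
  calc (volume {y | Real.exp (-N) ≤ G y}).toReal
      = Real.exp N * (Real.exp (-N) * (volume {y | Real.exp (-N) ≤ G y}).toReal) := by
        rw [← mul_assoc, ← Real.exp_add]
        simp
    _ ≤ Real.exp N * ∏ k, wt L b (cls s k) := by gcongr

end

end Pool.Agent.H96.HD
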