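import Pool.Agent.H96.HD.Final

/-!
# Hard disks near close packing: free energy, pressure, coexistence
-/

set_option autoImplicit false

open Real Set MeasureTheory Metric Filter Topology
open scoped ENNReal Nat

namespace Pool.Agent.H96.HD

open Pool.Agent.K4H96.HS

/-- The partition function of `N` hard disks of radius `a` with centres in the square `[0, L]²`. -/
noncomputable def Z (a L : ℝ) (N : ℕ) : ℝ :=
  (N ! : ℝ)⁻¹ * (volume {x : Fin N → Fin 2 → ℝ | (∀ i k, x i k ∈ Icc (0:ℝ) L) ∧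
    ∀ i j, i ≠ j → (2 * a) ^ 2 ≤ ∑ k, (x i k - x j k) ^ 2}).toReal

/-- `f` is the free energy per particle at the area `v` per particle. -/
def IsFreeEnergy (a v f : ℝ) : Prop :=
  ∀ (N : ℕ → ℕ) (L : ℕ → ℝ), Tendsto N atTop atTop → Tendsto L atTop atTop →
    Tendsto (fun k => L k ^ 2 / N k) atTop (𝓝 v) →
    (∀ᶠ k in atTop, 0 < Z a (L k) (N k)) ∧
      Tendsto (fun k => -Real.log (Z a (L k) (N k)) / N k) atTop (𝓝 f)

theorem Z_eq (a L : ℝ) (N : ℕ) :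
    Z a L N = (N ! : ℝ)⁻¹ * (volume (Conf N 2 (2 * a) (Box 2 L))).toReal := by
  unfold Z
  congr 3

theorem seq_tendsto {v : ℝ} (hv : 0 < v) :
    Tendsto (fun k : ℕ => k + 1) atTop atTop ∧
    Tendsto (fun k : ℕ => √(v * ((k + 1 : ℕ) : ℝ))) atTop atTop ∧
    ∀ k : ℕ, √(v * ((k + 1 : ℕ) : ℝ)) ^ 2 / ((k + 1 : ℕ) : ℝ) = v := by
  have h1 : Tendsto (fun k : ℕ => k + 1) atTop atTop := tendsto_add_atTop_nat 1
  refine ⟨h1, ?_, fun k => ?_⟩
  · refine tendsto_sqrt_atTop.comp ?_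
    exact (tendsto_natCast_atTop_atTop.comp h1).const_mul_atTop hv
  · have : (0:ℝ) < ((k + 1 : ℕ) : ℝ) := by positivity
    rw [Real.sq_sqrt (by positivity)]
    field_simp

theorem free_energy_bound {C : ℝ} (hC : 1 ≤ C)
    (h : ∀ a : ℝ, 0 < a → ∀ N : ℕ, 0 < N → ∀ L : ℝ, 0 ≤ L →
      C * a ^ 2 / √N ≤ L ^ 2 / N - 2 * √3 * a ^ 2 → L ^ 2 / N - 2 * √3 * a ^ 2 ≤ 4 * a ^ 2 →
      ((L ^ 2 / N - 2 * √3 * a ^ 2) ^ 2 / (C * a ^ 2)) ^ N ≤ Z a L N ∧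
      Z a L N ≤ (C * (L ^ 2 / N - 2 * √3 * a ^ 2) ^ 2 / a ^ 2) ^ N)
    {a v f : ℝ} (ha : 0 < a) (hv : 2 * √3 * a ^ 2 < v) (hv2 : v ≤ 2 * √3 * a ^ 2 + 4 * a ^ 2)
    (hf : IsFreeEnergy a v f) :
    |f + 2 * Real.log ((v - 2 * √3 * a ^ 2) / a)| ≤ Real.log C := by
  have hv0 : 0 < v := lt_trans (by positivity) hv
  have hx0 : 0 < v - 2 * √3 * a ^ 2 := by linarith
  set x := v - 2 * √3 * a ^ 2 with hx
  obtain ⟨h1, h2, h3⟩ := seq_tendsto hv0
  obtain ⟨-, hlim⟩ := hf _ _ h1 h2 (by simp only [h3]; exact tendsto_const_nhds)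
  have hev : ∀ᶠ k : ℕ in atTop, C * a ^ 2 / √((k + 1 : ℕ) : ℝ) ≤ x := by
    have h4 : Tendsto (fun k : ℕ => √((k + 1 : ℕ) : ℝ)) atTop atTop :=
      tendsto_sqrt_atTop.comp (tendsto_natCast_atTop_atTop.comp h1)
    have h5 : Tendsto (fun k : ℕ => C * a ^ 2 / √((k + 1 : ℕ) : ℝ)) atTop (𝓝 0) :=
      h4.const_div_atTop _
    exact h5.eventually_le_const hx0
  have hbd : ∀ᶠ k : ℕ in atTop,
      -Real.log (C * x ^ 2 / a ^ 2) ≤
        -Real.log (Z a (√(v * ((k + 1 : ℕ) : ℝ))) (k + 1)) / ((k + 1 : ℕ) : ℝ) ∧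
      -Real.log (Z a (√(v * ((k + 1 : ℕ) : ℝ))) (k + 1)) / ((k + 1 : ℕ) : ℝ) ≤
        -Real.log (x ^ 2 / (C * a ^ 2)) := by
    filter_upwards [hev] with k hk
    have hk' : (0:ℝ) < ((k + 1 : ℕ) : ℝ) := by positivity
    have h6 := h a ha (k + 1) (Nat.succ_pos k) (√(v * ((k + 1 : ℕ) : ℝ))) (Real.sqrt_nonneg _)
      (by rw [h3 k, ← hx]; exact hk) (by rw [h3 k, ← hx]; linarith)
    rw [h3 k, ← hx] at h6
    have hpos : 0 < (x ^ 2 / (C * a ^ 2)) ^ (k + 1) := by positivity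
    have hZ := lt_of_lt_of_le hpos h6.1
    have l1 := Real.log_le_log hpos h6.1
    have l2 := Real.log_le_log hZ h6.2
    rw [Real.log_pow] at l1 l2
    constructor
    · rw [le_div_iff₀ hk']
      linarith
    · rw [div_le_iff₀ hk']
      linarith
  have e1 : -Real.log (C * x ^ 2 / a ^ 2) = -Real.log C - 2 * Real.log (x / a) := by
    rw [show C * x ^ 2 / a ^ 2 = C * (x / a) ^ 2 by field_simp, Real.log_mul (by positivity)
      (by positivity), Real.log_pow]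
    push_cast
    ring
  have e2 : -Real.log (x ^ 2 / (C * a ^ 2)) = Real.log C - 2 * Real.log (x / a) := by
    rw [show x ^ 2 / (C * a ^ 2) = (x / a) ^ 2 / C by field_simp, Real.log_div (by positivity)
      (by positivity), Real.log_pow]
    push_cast
    ring
  have l1 := ge_of_tendsto hlim (hbd.mono fun k hk => hk.1)
  have l2 := le_of_tendsto hlim (hbd.mono fun k hk => hk.2)
  rw [e1] at l1
  rw [e2] at l2
  rw [abs_le]
  constructor <;> linarith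

/-- the limit of the normalised free side -/
theorem side_tendsto {a v f : ℝ} (hv : 0 < v) (hf : IsFreeEnergy a v f) :
    Tendsto (fun k : ℕ => rt (k + 1) 2 (2 * a) (√(v * ((k + 1 : ℕ) : ℝ))) / √((k + 1 : ℕ) : ℝ)) atTop
      (𝓝 (Real.exp (-(f + 1) / 2))) := by
  obtain ⟨h1, h2, h3⟩ := seq_tendsto hv
  obtain ⟨hpos, hlim⟩ := hf _ _ h1 h2 (by simp only [h3]; exact tendsto_const_nhds)
  have hfac : Tendsto (fun k : ℕ => Real.log (Nat.factorial (k + 1) : ℝ) / ((k + 1 : ℕ) : ℝ) -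
      Real.log ((k + 1 : ℕ) : ℝ)) atTop (𝓝 (-1)) := tendsto_log_factorial.comp h1
  have h4 : Tendsto (fun k : ℕ => ((Real.log (Nat.factorial (k + 1) : ℝ) / ((k + 1 : ℕ) : ℝ) -
      Real.log ((k + 1 : ℕ) : ℝ)) - (-Real.log (Z a (√(v * ((k + 1 : ℕ) : ℝ))) (k + 1)) /
        ((k + 1 : ℕ) : ℝ))) / 2) atTop (𝓝 ((-1 - f) / 2)) := (hfac.sub hlim).div_const 2
  have h5 := (Real.continuous_exp.tendsto _).comp h4
  rw [show (-1 - f) / 2 = -(f + 1) / 2 by ring] at h5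
  refine h5.congr' ?_
  filter_upwards [hpos] with k hk
  have hk' : (0:ℝ) < ((k + 1 : ℕ) : ℝ) := by positivity
  rw [Z_eq] at hk
  have hV : 0 < (volume (Conf (k + 1) 2 (2 * a) (Box 2 (√(v * ((k + 1 : ℕ) : ℝ)))))).toReal := by
    by_contra hcon
    push Not at hcon
    have h0 : (0:ℝ) ≤ ((k + 1)! : ℝ)⁻¹ := by positivity
    have := mul_nonpos_of_nonneg_of_nonpos h0 hcon
    linarith
  simp only [Function.comp]
  rw [Z_eq]
  set V := (volume (Conf (k + 1) 2 (2 * a) (Box 2 (√(v * ((k + 1 : ℕ) : ℝ)))))).toReal with hVdef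
  have hf0 : (0:ℝ) < ((k + 1)! : ℝ) := by positivity
  have e1 : rt (k + 1) 2 (2 * a) (√(v * ((k + 1 : ℕ) : ℝ))) =
      Real.exp (Real.log V / (((k + 1 : ℕ) : ℝ) * 2)) := by
    unfold rt
    rw [← hVdef, Real.rpow_def_of_pos hV]
    congr 1
    push_cast
    ring
  have e2 : √((k + 1 : ℕ) : ℝ) = Real.exp (Real.log ((k + 1 : ℕ) : ℝ) / 2) := by
    rw [Real.sqrt_eq_rpow, Real.rpow_def_of_pos hk']
    congr 1
    ring
  rw [e1, e2, ← Real.exp_sub, Real.log_mul (by positivity) hV.ne', Real.log_inv]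
  congr 1
  field_simp
  ring

/-- **Lower bound of the pressure** (limit of the Brunn-Minkowski inequality). -/
theorem side_ineq {a v v' f f' : ℝ} (hv : 0 < v) (hvv : v < v')
    (hf : IsFreeEnergy a v f) (hf' : IsFreeEnergy a v' f') :
    Real.exp (-(f + 1) / 2) + (√v' - √v) ≤ Real.exp (-(f' + 1) / 2) := by
  have h1 := side_tendsto hv hf
  have h2 := side_tendsto (hv.trans hvv) hf'
  obtain ⟨g1, g2, g3⟩ := seq_tendsto hv
  obtain ⟨hpos, -⟩ := hf _ _ g1 g2 (by simp only [g3]; exact tendsto_const_nhds)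
  refine le_of_tendsto_of_tendsto (h1.add_const _) h2 ?_
  filter_upwards [hpos] with k hk
  have hk' : (0:ℝ) < ((k + 1 : ℕ) : ℝ) := by positivity
  have hsk : 0 < √((k + 1 : ℕ) : ℝ) := Real.sqrt_pos.mpr hk'
  have hne : (Conf (k + 1) 2 (2 * a) (Box 2 (√(v * ((k + 1 : ℕ) : ℝ))))).Nonempty := by
    by_contra hcon
    rw [Set.not_nonempty_iff_eq_empty] at hcon
    rw [Z_eq, hcon] at hk
    simp at hk
  have h3 := rt_bm0 (Nat.succ_pos k) two_pos (2 * a) (√(v * ((k + 1 : ℕ) : ℝ)))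
    (√(v' * ((k + 1 : ℕ) : ℝ)) - √(v * ((k + 1 : ℕ) : ℝ)))
    (sub_nonneg.mpr (Real.sqrt_le_sqrt (by gcongr))) hne
  rw [sub_add_cancel] at h3
  have e1 : √(v * ((k + 1 : ℕ) : ℝ)) = √v * √((k + 1 : ℕ) : ℝ) := Real.sqrt_mul hv.le _
  have e2 : √(v' * ((k + 1 : ℕ) : ℝ)) = √v' * √((k + 1 : ℕ) : ℝ) :=
    Real.sqrt_mul (hv.trans hvv).le _
  have h4 : (√(v' * ((k + 1 : ℕ) : ℝ)) - √(v * ((k + 1 : ℕ) : ℝ)) +
      rt (k + 1) 2 (2 * a) (√(v * ((k + 1 : ℕ) : ℝ)))) / √((k + 1 : ℕ) : ℝ) ≤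
      rt (k + 1) 2 (2 * a) (√(v' * ((k + 1 : ℕ) : ℝ))) / √((k + 1 : ℕ) : ℝ) :=
    div_le_div_of_nonneg_right h3 hsk.le
  refine le_trans (le_of_eq ?_) h4
  rw [add_div, e1, e2]
  field_simp
  ring

end Pool.Agent.H96.HD
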