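import Pool.Agent.H96.HD.Count
import Pool.Graph.R_pool_sql_team_seeded_c8625f6e.K4H96.HS.Free

/-!
# Hard disks near close packing: two-sided bounds in finite volume
-/

set_option autoImplicit false

open Real Set MeasureTheory Metric Filter Topology
open scoped ENNReal Nat

namespace Pool.Agent.H96.HD

open Pool.Agent.K4H96.HS

theorem volume_conf_eq (N : ℕ) (L : ℝ) :
    volume (Conf N 2 (√3) (Box 2 L)) = volume (Kc N L) := by
  have hmp : MeasurePreserving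
      (fun (x : Fin N → ℂ) (i : Fin N) => Complex.measurableEquivPi (x i)) volume volume :=
    volume_preserving_pi fun _ => Complex.volume_preserving_equiv_pi
  have hset : Kc N L = (fun (x : Fin N → ℂ) (i : Fin N) => Complex.measurableEquivPi (x i)) ⁻¹'
      Conf N 2 (√3) (Box 2 L) := by
    ext x
    simp only [Kc, Conf, Box, Sq, mem_preimage, mem_ofPred_eq, Fin.forall_fin_two, Fin.sum_univ_two,
      Complex.measurableEquivPi_apply, Matrix.cons_val_zero, Matrix.cons_val_one]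
    refine and_congr Iff.rfl (forall_congr' fun i => forall_congr' fun j => forall_congr' fun _ => ?_)
    have h1 : ‖x i - x j‖ ^ 2 = ((x i).re - (x j).re) ^ 2 + ((x i).im - (x j).im) ^ 2 := by
      rw [Complex.sq_norm, Complex.normSq_apply, Complex.sub_re, Complex.sub_im]
      ring
    rw [← h1, pow_le_pow_iff_left₀ (by positivity) (norm_nonneg _) two_ne_zero]
  rw [hset, hmp.measure_preimage
    (conf_compact _ _ (box_compact 2 L)).isClosed.measurableSet.nullMeasurableSet]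

theorem vol_conf_two (N : ℕ) {a : ℝ} (ha : 0 < a) (L : ℝ) :
    (volume (Conf N 2 (2 * a) (Box 2 L))).toReal =
      (4 * a ^ 2 / 3) ^ N * (volume (Kc N (L / (2 * a / √3)))).toReal := by
  have h3 : (0:ℝ) < √3 := by positivity
  have hc : 0 < 2 * a / √3 := by positivity
  have h := vol_conf_smul (N := N) (d := 2) (2 * a / √3) hc (√3) (L / (2 * a / √3))
  rw [volume_conf_eq, div_mul_cancel₀ _ h3.ne', mul_div_cancel₀ _ hc.ne'] at h
  rw [h, mul_comm N 2, pow_mul]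
  congr 2
  rw [div_pow, Real.sq_sqrt (by norm_num)]
  ring

/-- upper bound in finite volume -/
theorem upper_fv (B : ℝ) (hB : 0 < B) : ∃ C : ℝ, 0 < C ∧ ∀ a : ℝ, 0 < a → ∀ N : ℕ, 0 < N →
    ∀ L : ℝ, 0 ≤ L → 0 < (L + 4 * a / √3) ^ 2 / N - 2 * √3 * a ^ 2 →
    (L + 4 * a / √3) ^ 2 / N - 2 * √3 * a ^ 2 ≤ B * a ^ 2 →
    (volume (Conf N 2 (2 * a) (Box 2 L))).toReal ≤
      N ! * (C * ((L + 4 * a / √3) ^ 2 / N - 2 * √3 * a ^ 2) ^ 2 / a ^ 2) ^ N := by
  obtain ⟨C, hC, h⟩ := main_plane (3 * B / 4) (by positivity)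
  refine ⟨3 / 4 * C, by positivity, fun a ha N hN L hL h0 hB' => ?_⟩
  have h3 : (0:ℝ) < √3 := by positivity
  have h33 : √3 * √3 = 3 := Real.mul_self_sqrt (by norm_num)
  have hN' : (0:ℝ) < N := by exact_mod_cast hN
  have hc : 0 < 2 * a / √3 := by positivity
  set y := (L + 4 * a / √3) ^ 2 / N - 2 * √3 * a ^ 2 with hy
  have hE : ((L / (2 * a / √3) + 2) ^ 2 - N * v0) = N * (3 * y / (4 * a ^ 2)) := by
    have e1 : L / (2 * a / √3) + 2 = (L + 4 * a / √3) * (√3 / (2 * a)) := by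
      field_simp
      ring
    have e2 : (L + 4 * a / √3) ^ 2 = N * (y + 2 * √3 * a ^ 2) := by
      rw [hy]
      field_simp
      ring
    rw [e1, mul_pow, e2, div_pow, Real.sq_sqrt (by norm_num)]
    unfold v0
    field_simp
    ring
  have h1 := h N hN (L / (2 * a / √3)) (by positivity) (by rw [hE]; positivity)
    (by
      rw [hE, mul_comm]
      refine mul_le_mul_of_nonneg_right ?_ hN'.le
      rw [div_le_iff₀ (by positivity)]
      nlinarith)
  rw [hE, mul_div_cancel_left₀ _ hN'.ne'] at h1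
  rw [vol_conf_two N ha]
  calc (4 * a ^ 2 / 3) ^ N * (volume (Kc N (L / (2 * a / √3)))).toReal
      ≤ (4 * a ^ 2 / 3) ^ N * (N ! * (C * (3 * y / (4 * a ^ 2)) ^ 2) ^ N) := by gcongr
    _ = N ! * ((4 * a ^ 2 / 3) * (C * (3 * y / (4 * a ^ 2)) ^ 2)) ^ N := by
        rw [mul_pow (4 * a ^ 2 / 3)]
        ring
    _ = N ! * (3 / 4 * C * y ^ 2 / a ^ 2) ^ N := by
        congr 2
        field_simp

theorem aux1 (r : ℝ) (A B u w : ℕ) (h : (2 * (A:ℤ) + u - 2 * B - w) ≠ 0) :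
    r ^ 2 / 4 ≤ (r * A + r / 2 * u - (r * B + r / 2 * w)) ^ 2 := by
  have e : (r * A + r / 2 * u - (r * B + r / 2 * w)) ^ 2 =
      r ^ 2 / 4 * ((2 * (A:ℤ) + u - 2 * B - w : ℤ) : ℝ) ^ 2 := by
    push_cast
    ring
  rw [e]
  have h6 : (1:ℤ) ≤ (2 * (A:ℤ) + u - 2 * B - w) ^ 2 := by
    have := sq_pos_of_ne_zero h
    linarith [Int.add_one_le_iff.mpr this]
  have h7 : (1:ℝ) ≤ ((2 * (A:ℤ) + u - 2 * B - w : ℤ) : ℝ) ^ 2 := by exact_mod_cast h6
  have h8 : 0 ≤ r ^ 2 / 4 := by positivity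
  nlinarith

theorem aux2 (r : ℝ) (A B : ℕ) (x : ℝ) (h : A ≠ B) :
    r ^ 2 ≤ (r * A + x - (r * B + x)) ^ 2 := by
  have e : (r * A + x - (r * B + x)) ^ 2 = r ^ 2 * (((A:ℤ) - B : ℤ) : ℝ) ^ 2 := by
    push_cast
    ring
  rw [e]
  have hne : ((A:ℤ) - B) ≠ 0 := by omega
  have h6 : (1:ℤ) ≤ ((A:ℤ) - B) ^ 2 := by
    have := sq_pos_of_ne_zero hne
    linarith [Int.add_one_le_iff.mpr this]
  have h7 : (1:ℝ) ≤ (((A:ℤ) - B : ℤ) : ℝ) ^ 2 := by exact_mod_cast h6
  have h8 : 0 ≤ r ^ 2 := by positivity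
  nlinarith

/-- the hexagonal arrangement -/
theorem hex_nonempty (N : ℕ) {r M : ℝ} (hr : 0 < r) (hM : r ≤ M)
    (h : √3 / 2 * r ^ 2 * N ≤ M * (M - r)) : (Conf N 2 r (Box 2 M)).Nonempty := by
  have h3 : (0:ℝ) < √3 := by positivity
  have h33 : √3 * √3 = 3 := Real.mul_self_sqrt (by norm_num)
  set P := ⌊M / r⌋₊ with hP
  have hP1 : 1 ≤ P := by
    rw [hP, Nat.one_le_floor_iff, le_div_iff₀ hr, one_mul]
    exact hM
  have hPle : (P : ℝ) * r ≤ M := by
    have := Nat.floor_le (a := M / r) (div_nonneg (hr.le.trans hM) hr.le)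
    rwa [← hP, le_div_iff₀ hr] at this
  have hPge : M - r ≤ P * r := by
    have := Nat.lt_floor_add_one (M / r)
    rw [← hP, div_lt_iff₀ hr] at this
    linarith
  have hP' : (1:ℝ) ≤ P := by exact_mod_cast hP1
  have hM0 : 0 < M := lt_of_lt_of_le hr hM
  -- the points
  let X : ℕ → Fin 2 → ℝ := fun n => ![r * ((n % P : ℕ) : ℝ) + r / 2 * (((n / P) % 2 : ℕ) : ℝ),
    √3 / 2 * r * ((n / P : ℕ) : ℝ)]
  refine ⟨fun i => X i, fun i k => ?_, fun i j hij => ?_⟩
  · -- in the box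
    have hi1 : (((i:ℕ) % P : ℕ) : ℝ) ≤ P - 1 := by
      have : (i:ℕ) % P + 1 ≤ P := Nat.mod_lt _ (by omega)
      have : (((i:ℕ) % P : ℕ) : ℝ) + 1 ≤ P := by exact_mod_cast this
      linarith
    have hi2 : ((((i:ℕ) / P) % 2 : ℕ) : ℝ) ≤ 1 := by
      have : ((i:ℕ) / P) % 2 ≤ 1 := by omega
      exact_mod_cast this
    have hi3 : (((i:ℕ) / P : ℕ) : ℝ) * P ≤ N := by
      have h1 : (i:ℕ) / P * P ≤ i := Nat.div_mul_le_self _ _
      have h2 : (i:ℕ) / P * P ≤ N := h1.trans i.2.le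
      exact_mod_cast h2
    fin_cases k
    · simp only [X, mem_Icc, Fin.zero_eta, Matrix.cons_val_zero]
      constructor
      · positivity
      · nlinarith
    · simp only [X, mem_Icc, Fin.mk_one, Matrix.cons_val_one, Matrix.cons_val_fin_one]
      constructor
      · positivity
      · have h5 : √3 / 2 * r * (((i:ℕ) / P : ℕ) : ℝ) * (P * r) ≤ M * (P * r) := by
          calc √3 / 2 * r * (((i:ℕ) / P : ℕ) : ℝ) * (P * r)
              = √3 / 2 * r ^ 2 * ((((i:ℕ) / P : ℕ) : ℝ) * P) := by ring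
            _ ≤ √3 / 2 * r ^ 2 * N := by gcongr
            _ ≤ M * (M - r) := h
            _ ≤ M * (P * r) := by gcongr
        exact le_of_mul_le_mul_right h5 (by positivity)
  · -- distances
    have hij' : (i:ℕ) ≠ j := fun h => hij (Fin.ext h)
    simp only [X, Fin.sum_univ_two, Matrix.cons_val_zero, Matrix.cons_val_one,
      Matrix.cons_val_fin_one]
    have key : ∀ m n : ℕ, m ≠ n → m / P ≤ n / P →
        r ^ 2 ≤ (r * ((m % P : ℕ) : ℝ) + r / 2 * (((m / P) % 2 : ℕ) : ℝ) -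
          (r * ((n % P : ℕ) : ℝ) + r / 2 * (((n / P) % 2 : ℕ) : ℝ))) ^ 2 +
          (√3 / 2 * r * ((m / P : ℕ) : ℝ) - √3 / 2 * r * ((n / P : ℕ) : ℝ)) ^ 2 := by
      intro m n hmn hle
      have hs : (√3 / 2 * r * ((m / P : ℕ) : ℝ) - √3 / 2 * r * ((n / P : ℕ) : ℝ)) ^ 2 =
          3 / 4 * r ^ 2 * (((n / P : ℕ) : ℝ) - ((m / P : ℕ) : ℝ)) ^ 2 := by
        have : (√3 / 2 * r * ((m / P : ℕ) : ℝ) - √3 / 2 * r * ((n / P : ℕ) : ℝ)) ^ 2 =
          (√3 * √3) / 4 * r ^ 2 * (((n / P : ℕ) : ℝ) - ((m / P : ℕ) : ℝ)) ^ 2 := by ring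
        rw [this, h33]
      rw [hs]
      rcases Nat.lt_trichotomy (m / P + 1) (n / P) with h1 | h1 | h1
      · -- rows at distance at least two
        have h2 : (2:ℝ) ≤ ((n / P : ℕ) : ℝ) - ((m / P : ℕ) : ℝ) := by
          have : m / P + 2 ≤ n / P := by omega
          have : ((m / P : ℕ) : ℝ) + 2 ≤ ((n / P : ℕ) : ℝ) := by exact_mod_cast this
          linarith
        have h4 : (4:ℝ) ≤ (((n / P : ℕ) : ℝ) - ((m / P : ℕ) : ℝ)) ^ 2 := by nlinarith
        have h5 : 0 ≤ r ^ 2 := by positivity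
        have h6 : r ^ 2 * 4 ≤ r ^ 2 * (((n / P : ℕ) : ℝ) - ((m / P : ℕ) : ℝ)) ^ 2 := by gcongr
        nlinarith [sq_nonneg (r * ((m % P : ℕ) : ℝ) + r / 2 * (((m / P) % 2 : ℕ) : ℝ) -
          (r * ((n % P : ℕ) : ℝ) + r / 2 * (((n / P) % 2 : ℕ) : ℝ)))]
      · -- adjacent rows
        have h2 : ((n / P : ℕ) : ℝ) - ((m / P : ℕ) : ℝ) = 1 := by
          rw [← h1]; push_cast; ring
        rw [h2]
        have h4 := aux1 r (m % P) (n % P) ((m / P) % 2) ((n / P) % 2) (by omega)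
        linarith
      · -- the same row
        have h2 : n / P = m / P := by omega
        have h4 : m % P ≠ n % P := by
          intro h5
          apply hmn
          rw [← Nat.div_add_mod m P, ← Nat.div_add_mod n P, h2, h5]
        rw [h2]
        have h5 := aux2 r (m % P) (n % P) (r / 2 * (((m / P) % 2 : ℕ) : ℝ)) h4
        have h8 : 0 ≤ r ^ 2 := by positivity
        nlinarith
    rcases le_total ((i:ℕ) / P) ((j:ℕ) / P) with hle | hle
    · exact key i j hij' hle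
    · have := key j i hij'.symm hle
      refine this.trans (le_of_eq ?_)
      ring

/-- lower bound in finite volume -/
theorem lower_fv {a : ℝ} (ha : 0 < a) (N : ℕ) (hN : 0 < N) (L : ℝ)
    (hL : √(2 * √3 * a ^ 2 * N) + 2 * a ≤ L) :
    (L - (√(2 * √3 * a ^ 2 * N) + 2 * a)) ^ (2 * N) ≤
      (volume (Conf N 2 (2 * a) (Box 2 L))).toReal := by
  set M := √(2 * √3 * a ^ 2 * N) + 2 * a with hM
  have hs : 0 ≤ √(2 * √3 * a ^ 2 * N) := Real.sqrt_nonneg _
  have hne : (Conf N 2 (2 * a) (Box 2 M)).Nonempty := by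
    refine hex_nonempty N (by positivity) (by linarith) ?_
    have h1 : √(2 * √3 * a ^ 2 * N) * √(2 * √3 * a ^ 2 * N) = 2 * √3 * a ^ 2 * N :=
      Real.mul_self_sqrt (by positivity)
    rw [hM]
    nlinarith
  have h := rt_bm0 hN two_pos (2 * a) M (L - M) (by linarith) hne
  rw [sub_add_cancel] at h
  have h0 := rt_nonneg (N := N) (d := 2) (2 * a) M
  rw [← rt_pow hN two_pos, mul_comm N 2]
  exact pow_le_pow_left₀ (by linarith) (by linarith) _

end Pool.Agent.H96.HD
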